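import Pool.Agent.H71.PQ.Typ

set_option autoImplicit false
set_option linter.unusedSectionVars false

/-!
# Substitutions: the core theorem

`c : V → I` describes a graph `G` on `V` as a substitution in the graph `A` on `I`. If the partition
of `V` into the fibres of `c` can be recognised in the cards (`rH`), and `A` has a locating set with
few copies, then every graph hypomorphic to `G` is isomorphic to `G`.
-/

namespace Pool.Agent.H71.PQ

open Finset Classical
open Pool.Agent.H71.PO (Hypo NonIso)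
open Pool.Agent.H71.LOC (Comp)
open Pool.Agent.H71.PO (pe)

variable {V I : Type} [Fintype V] [Fintype I]

variable {G H : V → V → Prop} {π : V → Equiv.Perm V}

theorem symm_ne (hH : Hypo G H π) {u z : V} (h : z ≠ u) : (π u).symm z ≠ u := by
  intro e
  rw [Equiv.symm_apply_eq, hH.fix] at e
  exact h e

theorem pi_ne (hH : Hypo G H π) {u z : V} (h : z ≠ u) : π u z ≠ u := by
  intro e
  apply h
  apply (π u).injective
  rw [e, hH.fix]

theorem exists_ne3 (hn : 4 ≤ Fintype.card V) (x y z : V) : ∃ u, x ≠ u ∧ y ≠ u ∧ z ≠ u := by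
  by_contra hcon
  push Not at hcon
  have h1 : (univ : Finset V) ⊆ {x, y, z} := by
    intro u _
    rw [mem_insert, mem_insert, mem_singleton]
    by_cases h1 : x = u
    · exact Or.inl h1.symm
    · by_cases h2 : y = u
      · exact Or.inr (Or.inl h2.symm)
      · exact Or.inr (Or.inr (hcon u h1 h2).symm)
  have h2 := card_le_card h1
  rw [card_univ] at h2
  have h3 := card_le_three (a := x) (b := y) (c := z)
  omega

/-! ### Relations -/

/-- the relation `rH` is the image of `rG` in every card -/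
def RelDeck (π : V → Equiv.Perm V) (rG rH : V → V → Prop) : Prop :=
  ∀ u x y, x ≠ u → y ≠ u → (rH (π u x) (π u y) ↔ rG x y)

theorem pull (hH : Hypo G H π) {rG rH : V → V → Prop} (hr : RelDeck π rG rH) {u x y : V}
    (hx : x ≠ u) (hy : y ≠ u) : rH x y ↔ rG ((π u).symm x) ((π u).symm y) := by
  rw [← hr u _ _ (symm_ne hH hx) (symm_ne hH hy), Equiv.apply_symm_apply,
    Equiv.apply_symm_apply]

theorem equiv_H (hH : Hypo G H π) {rG rH : V → V → Prop} (hr : RelDeck π rG rH)
    (hn : 4 ≤ Fintype.card V) (he : Equivalence rG) : Equivalence rH := by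
  refine ⟨fun x => ?_, fun {x y} h => ?_, ?_⟩
  · obtain ⟨u, hx, _, _⟩ := exists_ne3 hn x x x
    rw [pull hH hr hx hx]
    exact he.refl _
  · obtain ⟨u, hx, hy, _⟩ := exists_ne3 hn x y y
    rw [pull hH hr hx hy] at h
    rw [pull hH hr hy hx]
    exact he.symm h
  · intro x y z h1 h2
    obtain ⟨u, hx, hy, hz⟩ := exists_ne3 hn x y z
    rw [pull hH hr hx hy] at h1
    rw [pull hH hr hy hz] at h2
    rw [pull hH hr hx hz]
    exact he.trans h1 h2

theorem mods_H (hH : Hypo G H π) {rG rH : V → V → Prop} (hr : RelDeck π rG rH)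
    (hn : 4 ≤ Fintype.card V) (hM : Mods G rG) : Mods H rH := by
  intro x x' y h1 h2
  obtain ⟨u, hx, hx', hy⟩ := exists_ne3 hn x x' y
  rw [pull hH hr hx hx'] at h1
  rw [pull hH hr hx hy] at h2
  have h3 := hM _ _ _ h1 h2
  rw [← hH.adj u _ _ (symm_ne hH hx) (symm_ne hH hy),
    ← hH.adj u _ _ (symm_ne hH hx') (symm_ne hH hy),
    ← hH.adj u _ _ (symm_ne hH hy) (symm_ne hH hx),
    ← hH.adj u _ _ (symm_ne hH hy) (symm_ne hH hx'), Equiv.apply_symm_apply,
    Equiv.apply_symm_apply, Equiv.apply_symm_apply] at h3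
  exact h3

/-- the number of the related pairs -/
noncomputable def np (r : V → V → Prop) : ℕ :=
  (univ.filter (fun p : V × V => p.1 ≠ p.2 ∧ r p.1 p.2)).card

/-- the related pairs avoiding `u` -/
noncomputable def npu (r : V → V → Prop) (u : V) : ℕ :=
  (univ.filter (fun p : V × V => (p.1 ≠ u ∧ p.2 ≠ u) ∧ p.1 ≠ p.2 ∧ r p.1 p.2)).card

theorem np_split {r : V → V → Prop} (he : Equivalence r) (u : V) :
    np r = npu r u + 2 * ((cls r u).erase u).card := by
  unfold np npu
  rw [← card_filter_add_card_filter_not (s := univ.filter (fun p : V × V => p.1 ≠ p.2 ∧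
    r p.1 p.2)) (fun p => p.1 ≠ u ∧ p.2 ≠ u)]
  rw [filter_filter, filter_filter]
  congr 1
  · congr 1
    ext p
    rw [mem_filter, mem_filter]
    tauto
  · have h1 : univ.filter (fun p : V × V => (p.1 ≠ p.2 ∧ r p.1 p.2) ∧
        ¬ (p.1 ≠ u ∧ p.2 ≠ u)) = ((cls r u).erase u).image (fun y => (u, y)) ∪
          ((cls r u).erase u).image (fun y => (y, u)) := by
      ext p
      rw [mem_filter, mem_union, mem_image, mem_image]
      constructor
      · rintro ⟨_, ⟨h1, h2⟩, h3⟩
        by_cases h4 : p.1 = u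
        · left
          refine ⟨p.2, ?_, Prod.ext h4.symm rfl⟩
          rw [mem_erase, mem_cls]
          rw [h4] at h1 h2
          exact ⟨h1.symm, h2⟩
        · right
          have h5 : p.2 = u := by
            by_contra h5
            exact h3 ⟨h4, h5⟩
          refine ⟨p.1, ?_, Prod.ext rfl h5.symm⟩
          rw [mem_erase, mem_cls]
          rw [h5] at h2
          exact ⟨h4, he.symm h2⟩
      · rintro (⟨y, hy, rfl⟩ | ⟨y, hy, rfl⟩)
        · rw [mem_erase, mem_cls] at hy
          exact ⟨mem_univ _, ⟨hy.1.symm, hy.2⟩, fun h => h.1 rfl⟩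
        · rw [mem_erase, mem_cls] at hy
          exact ⟨mem_univ _, ⟨hy.1, he.symm hy.2⟩, fun h => h.2 rfl⟩
    rw [h1, card_union_of_disjoint, card_image_of_injective, card_image_of_injective]
    · ring
    · intro a b e
      exact (Prod.ext_iff.mp e).1
    · intro a b e
      exact (Prod.ext_iff.mp e).2
    · rw [disjoint_left]
      intro p hp hq
      rw [mem_image] at hp hq
      obtain ⟨y, hy, rfl⟩ := hp
      obtain ⟨z, _, hz⟩ := hq
      have h2 : u = y := (Prod.ext_iff.mp hz).2
      exact (mem_erase.mp hy).1 h2.symm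

theorem npu_eq (hH : Hypo G H π) {rG rH : V → V → Prop} (hr : RelDeck π rG rH) (u : V) :
    npu rG u = npu rH u := by
  unfold npu
  apply card_bij (fun p _ => (π u p.1, π u p.2))
  · intro p hp
    rw [mem_filter] at hp ⊢
    obtain ⟨_, ⟨h1, h2⟩, h3, h4⟩ := hp
    exact ⟨mem_univ _, ⟨pi_ne hH h1, pi_ne hH h2⟩, fun e => h3 ((π u).injective e),
      (hr u _ _ h1 h2).mpr h4⟩
  · intro p _ q _ e
    exact Prod.ext ((π u).injective (Prod.ext_iff.mp e).1)
      ((π u).injective (Prod.ext_iff.mp e).2)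
  · intro p hp
    rw [mem_filter] at hp
    obtain ⟨_, ⟨h1, h2⟩, h3, h4⟩ := hp
    refine ⟨((π u).symm p.1, (π u).symm p.2), ?_, by simp⟩
    rw [mem_filter]
    exact ⟨mem_univ _, ⟨symm_ne hH h1, symm_ne hH h2⟩, fun e => h3 ((π u).symm.injective e),
      (pull hH hr h1 h2).mp h4⟩

theorem sum_npu (r : V → V → Prop) : ∑ u : V, npu r u = (Fintype.card V - 2) * np r := by
  have h1 : ∀ u : V, npu r u = ∑ p ∈ univ.filter (fun p : V × V => p.1 ≠ p.2 ∧ r p.1 p.2),
      if (p.1 ≠ u ∧ p.2 ≠ u) then 1 else 0 := by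
    intro u
    unfold npu
    rw [← card_filter, filter_filter]
    congr 1
    ext p
    rw [mem_filter, mem_filter]
    tauto
  simp_rw [h1]
  rw [sum_comm]
  unfold np
  rw [mul_comm, ← smul_eq_mul, ← sum_const]
  apply sum_congr rfl
  intro p hp
  rw [← card_filter]
  have h2 : univ.filter (fun u : V => p.1 ≠ u ∧ p.2 ≠ u) = ({p.1, p.2} : Finset V)ᶜ := by
    ext u
    rw [mem_filter, mem_compl, mem_insert, mem_singleton]
    constructor
    · rintro ⟨_, h3, h4⟩ (h5 | h5)
      · exact h3 h5.symm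
      · exact h4 h5.symm
    · intro h3
      push Not at h3
      exact ⟨mem_univ _, h3.1.symm, h3.2.symm⟩
  rw [h2, card_compl, card_pair (mem_filter.mp hp).2.1]

theorem cls_card (hH : Hypo G H π) {rG rH : V → V → Prop} (hr : RelDeck π rG rH)
    (hn : 4 ≤ Fintype.card V) (heG : Equivalence rG) (heH : Equivalence rH) (u : V) :
    (cls rG u).card = (cls rH u).card := by
  have h0 : np rG = np rH := by
    have h1 := sum_npu rG
    rw [sum_congr rfl (fun u _ => npu_eq hH hr u), sum_npu rH] at h1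
    exact (Nat.eq_of_mul_eq_mul_left (by omega) h1).symm
  have h1 := np_split heG u
  have h2 := np_split heH u
  rw [h0, h2, npu_eq hH hr u] at h1
  have h3 : u ∈ cls rG u := mem_cls.mpr (heG.refl u)
  have h3' : u ∈ cls rH u := mem_cls.mpr (heH.refl u)
  have h4 := card_erase_add_one h3
  have h5 := card_erase_add_one h3'
  omega

theorem card_reps {r : V → V → Prop} (he : Equivalence r) {ρ : V → V} (hρ : Rep r ρ) :
    ((univ.filter (fun w => ρ w = w)).card : ℚ) = ∑ w : V, 1 / ((cls r w).card : ℚ) := by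
  rw [← sum_fiberwise_of_maps_to (s := (univ : Finset V)) (t := univ.filter (fun w => ρ w = w))
    (g := ρ)]
  · rw [card_eq_sum_ones]
    push_cast
    apply sum_congr rfl
    intro v hv
    have hv' := (mem_filter.mp hv).2
    have h1 : univ.filter (fun w => ρ w = v) = cls r v := by
      ext w
      rw [mem_filter, mem_cls]
      constructor
      · rintro ⟨_, h⟩
        have := hρ.rel w
        rw [h] at this
        exact he.symm this
      · intro h
        refine ⟨mem_univ _, ?_⟩
        rw [← hρ.eq _ _ h, hv']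
    rw [h1]
    have h2 : ∀ w ∈ cls r v, 1 / ((cls r w).card : ℚ) = 1 / ((cls r v).card : ℚ) := by
      intro w hw
      rw [cls_eq he (mem_cls.mp hw)]
    rw [sum_congr rfl h2, sum_const, nsmul_eq_mul]
    have h3 : 0 < (cls r v).card := card_pos.mpr ⟨v, mem_cls.mpr (he.refl v)⟩
    have h4 : ((cls r v).card : ℚ) ≠ 0 := by
      have : (0 : ℚ) < ((cls r v).card : ℚ) := by exact_mod_cast h3
      exact this.ne'
    field_simp
  · intro w _
    rw [mem_filter]
    exact ⟨mem_univ _, (hρ.eq _ _ (hρ.rel w)).symm⟩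

/-! ### The core theorem -/

/-- the parts `i` and `j` are isomorphic -/
def SameT (G : V → V → Prop) (c : V → I) (i j : I) : Prop :=
  ∃ τ : Equiv.Perm V, (∀ x, c x = i ↔ c (τ x) = j) ∧
    ∀ x y, c x = i → c y = i → (G (τ x) (τ y) ↔ G x y)

/-- labels which can be mapped to the same vertex have isomorphic parts -/
theorem same_of_PP {c : V → I} {v : I → V} (hcv : ∀ i, c (v i) = i)
    {X : V → V → Prop} {r : V → V → Prop} (he : Equivalence r) {ρ : V → V} {i j : I} {w : V}
    (h1 : (i, w) ∈ PP r ρ (cl X r) (fun i => cl G (fun x y => c x = c y) (v i)))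
    (h2 : (j, w) ∈ PP r ρ (cl X r) (fun i => cl G (fun x y => c x = c y) (v i))) :
    SameT G c i j := by
  obtain ⟨_, w1, hw1, hc1⟩ := mem_PP.mp h1
  obtain ⟨_, w2, hw2, hc2⟩ := mem_PP.mp h2
  obtain ⟨τ1, h11, _, h13⟩ := exists_of_ty (show ty G (cls (fun x y => c x = c y) (v i)) (v i) =
    ty X (cls r w1) w1 from hc1.symm)
  obtain ⟨τ2, h21, _, h23⟩ := exists_of_ty (show ty G (cls (fun x y => c x = c y) (v j)) (v j) =
    ty X (cls r w2) w2 from hc2.symm)
  have hcls : cls r w1 = cls r w2 := cls_eq he (he.trans (he.symm hw1) hw2)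
  have hm : ∀ (a : I) (x : V), x ∈ cls (fun x y => c x = c y) (v a) ↔ c x = a := by
    intro a x
    rw [mem_cls, hcv]
    exact eq_comm
  have hmem : ∀ x, c x = i → τ2.symm (τ1 x) ∈ cls (fun x y => c x = c y) (v j) := by
    intro x hx
    rw [h21, Equiv.apply_symm_apply, ← hcls]
    exact (h11 x).mp ((hm i x).mpr hx)
  refine ⟨τ1.trans τ2.symm, fun x => ?_, fun x y hx hy => ?_⟩
  · rw [← hm i x, h11 x, hcls]
    show _ ↔ c (τ2.symm (τ1 x)) = j
    rw [← hm j, h21, Equiv.apply_symm_apply]
  · show G (τ2.symm (τ1 x)) (τ2.symm (τ1 y)) ↔ _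
    rw [← h23 _ (hmem x hx) _ (hmem y hy), Equiv.apply_symm_apply, Equiv.apply_symm_apply]
    exact h13 x ((hm i x).mpr hx) y ((hm i y).mpr hy)

theorem same_of_PP' {c : V → I} {v : I → V} (hcv : ∀ i, c (v i) = i) {ρ : V → V}
    {p : I × V} (h1 : p ∈ PP (fun x y => c x = c y) ρ (cl G (fun x y => c x = c y))
      (fun i => cl G (fun x y => c x = c y) (v i))) :
    SameT G c p.1 (c p.2) := by
  obtain ⟨_, w1, hw1, hc1⟩ := mem_PP.mp h1
  obtain ⟨τ1, h11, _, h13⟩ := exists_of_ty
    (show ty G (cls (fun x y => c x = c y) (v p.1)) (v p.1) =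
      ty G (cls (fun x y => c x = c y) w1) w1 from hc1.symm)
  have hm : ∀ (a : I) (x : V), x ∈ cls (fun x y => c x = c y) (v a) ↔ c x = a := by
    intro a x
    rw [mem_cls, hcv]
    exact eq_comm
  refine ⟨τ1, fun x => ?_, fun x y hx hy => ?_⟩
  · rw [← hm p.1 x, h11 x, mem_cls, ← hw1]
    exact eq_comm
  · exact h13 x ((hm p.1 x).mpr hx) y ((hm p.1 y).mpr hy)

theorem core {A : I → I → Prop} {c : V → I} (hc : Function.Surjective c)
    (hadj : ∀ x y, c x ≠ c y → (G x y ↔ A (c x) (c y))) (hn : 4 ≤ Fintype.card V)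
    {D : Finset I} (hD : ∀ i j, i ∉ D → j ∉ D → SameT G c i j →
      (∀ d ∈ D, (A i d ↔ A j d) ∧ (A d i ↔ A d j)) → i = j) (hDu : D ≠ univ)
    (hnum : 4 * ((pe A A D).filter (fun J => ∀ p ∈ J, SameT G c p.1 p.2)).card ^ 2 <
      ((pe A A univ).filter (fun J => ∀ p ∈ J, SameT G c p.1 p.2)).card ^ 2 *
        2 ^ (Fintype.card I - D.card))
    (hH : Hypo G H π) {rH : V → V → Prop}
    (hrel : RelDeck π (fun x y => c x = c y) rH) : ¬ NonIso G H := by
  intro hN
  set rG : V → V → Prop := fun x y => c x = c y with hrG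
  have hrc : ∀ x y, rG x y ↔ c x = c y := fun x y => Iff.rfl
  have heG : Equivalence rG := ⟨fun x => rfl, fun h => h.symm, fun h1 h2 => h1.trans h2⟩
  have hMG : Mods G rG := by
    intro x x' y h1 h2
    rw [hrc] at h1 h2
    rw [hadj x y h2, hadj x' y (fun h => h2 (h1.trans h)), hadj y x (Ne.symm h2),
      hadj y x' (fun h => h2 (h1.trans h.symm)), h1]
    exact ⟨Iff.rfl, Iff.rfl⟩
  have heH := equiv_H hH hrel hn heG
  have hMH := mods_H hH hrel hn hMG
  have hcc := cls_card hH hrel hn heG heH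
  obtain ⟨ρG, hρG⟩ := exists_rep heG
  obtain ⟨ρH, hρH⟩ := exists_rep heH
  set v : I → V := Function.surjInv hc with hv
  have hcv : ∀ i, c (v i) = i := Function.surjInv_eq hc
  set k : I → Ty V := fun i => cl G rG (v i) with hk
  have hDeck : Deck G H π rG rH (clu G rG) (clu H rH) := by
    refine ⟨hH, hrel, ?_, ?_⟩
    · intro u x hx
      symm
      apply ty_eq (π u)
      refine ⟨fun y => ?_, rfl, ?_⟩
      · rw [mem_erase, mem_erase, mem_cls, mem_cls]
        constructor
        · rintro ⟨h1, h2⟩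
          exact ⟨pi_ne hH h1, (hrel u x y hx h1).mpr h2⟩
        · rintro ⟨h1, h2⟩
          have h3 : y ≠ u := fun e => h1 (by rw [e]; exact hH.fix u)
          exact ⟨h3, (hrel u x y hx h3).mp h2⟩
      · intro y hy z hz
        exact hH.adj u y z (mem_erase.mp hy).1 (mem_erase.mp hz).1
    · have hone : ∀ r : V → V → Prop, Equivalence r → ∀ u, u ∈ triv r ↔ (cls r u).card = 1 := by
        intro r he u
        rw [mem_triv, card_eq_one]
        constructor
        · intro h
          refine ⟨u, ?_⟩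
          ext y
          rw [mem_cls, mem_singleton]
          exact ⟨h y, fun e => by rw [e]; exact he.refl u⟩
        · rintro ⟨a, ha⟩ y hy
          have h1 : y ∈ cls r u := mem_cls.mpr hy
          have h2 : u ∈ cls r u := mem_cls.mpr (he.refl u)
          rw [ha, mem_singleton] at h1 h2
          rw [h1, h2]
      ext u
      rw [hone rG heG, hone rH heH, hcc]
  -- the two coloured quotients have the same proper parts
  have hkel : ∀ S : Finset I, S ≠ univ →
      (NR A G rG (PP rG ρG (cl G rG) k) S).card = (NR A H rH (PP rH ρH (cl H rH) k) S).card := by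
    intro S hS
    have h1 := card_prod (A := A) heG hMG hρG (cl G rG) k ob (orb_eq G heG) S
    have h2 := card_prod (A := A) heH hMH hρH (cl H rH) k ob (orb_eq H heH) S
    have hsum : ∑ a ∈ S, sz (k a) < Fintype.card V := by
      have h3 : ∑ a ∈ S, sz (k a) = (S.biUnion (fun a => cls rG (v a))).card := by
        rw [card_biUnion]
        · rfl
        · intro a ha b hb hab
          refine disjoint_left.mpr ?_
          intro y hy1 hy2
          rw [mem_cls, hrc, hcv] at hy1 hy2
          exact hab (hy1.trans hy2.symm)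
      rw [h3, ← card_univ]
      apply card_lt_card
      obtain ⟨i, hi⟩ : ∃ i, i ∉ S := by
        by_contra hcon
        push Not at hcon
        exact hS (eq_univ_of_forall hcon)
      refine ⟨subset_univ _, fun hsub => ?_⟩
      have := hsub (mem_univ (v i))
      rw [mem_biUnion] at this
      obtain ⟨a, ha, hy⟩ := this
      rw [mem_cls, hrc, hcv, hcv] at hy
      rw [hy] at ha
      exact hi ha
    have h4 := kelly (A := A) (isCls G heG) (isCls H heH) hDeck S
      (Fintype.card V - 1 - ∑ a ∈ S, sz (k a)) k (by omega)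
    rw [h4, h2] at h1
    have h5 : 0 < ∏ a ∈ S, ob (k a) := prod_pos (fun a _ => orb_pos G heG (v a))
    exact (Nat.eq_of_mul_eq_mul_left h5 h1).symm
  -- the number of classes
  have hRG : (univ.filter (fun w => ρG w = w)).card ≤ Fintype.card I := by
    rw [← card_univ (α := I)]
    apply card_le_card_of_injOn c
    · intro x _
      exact mem_univ _
    · intro x hx y hy e
      rw [mem_coe, mem_filter] at hx hy
      rw [← hx.2, ← hy.2]
      exact hρG.eq _ _ e
  have hRH : (univ.filter (fun w => ρH w = w)).card ≤ Fintype.card I := by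
    have h1 := card_reps heG hρG
    have h2 := card_reps heH hρH
    rw [sum_congr rfl (fun w _ => by rw [hcc w]), ← h2] at h1
    have h3 : (univ.filter (fun w => ρG w = w)).card = (univ.filter (fun w => ρH w = w)).card := by
      exact_mod_cast h1
    rw [← h3]
    exact hRG
  -- there is no embedding of the whole coloured quotient into that of `H`
  have hH0 : (NR A H rH (PP rH ρH (cl H rH) k) univ).card = 0 := by
    rw [card_eq_zero]
    by_contra hne
    obtain ⟨J, hJ⟩ := nonempty_iff_ne_empty.mpr hne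
    rw [mem_NR] at hJ
    obtain ⟨hJ1, hJ2, hJ3⟩ := hJ
    have h1 : ∀ i : I, ∃ w, (i, w) ∈ J := by
      intro i
      have : i ∈ J.image Prod.fst := by rw [hJ2]; exact mem_univ i
      rw [mem_image] at this
      obtain ⟨p, hp, rfl⟩ := this
      exact ⟨p.2, hp⟩
    choose w' hw' using h1
    have h2 : ∀ i : I, ∃ w, rH (w' i) w ∧ cl H rH w = k i := by
      intro i
      have := hJ3 (hw' i)
      rw [mem_PP] at this
      exact this.2
    choose w hw using h2
    have h3 : ∀ i : I, ∃ τ : Equiv.Perm V, MapsTo τ G (cls rG (v i)) (v i) H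
        (cls rH (w i)) (w i) := fun i => exists_of_ty (hw i).2.symm
    choose τ hτ using h3
    have hmem : ∀ x, x ∈ cls rG (v (c x)) := by
      intro x
      rw [mem_cls, hrc, hcv]
    have him : ∀ x, rH (w' (c x)) (τ (c x) x) := by
      intro x
      have h4 := ((hτ (c x)).1 x).mp (hmem x)
      rw [mem_cls] at h4
      exact heH.trans (hw (c x)).1 h4
    have hsep : ∀ x y, c x ≠ c y → ¬ rH (τ (c x) x) (τ (c y) y) := by
      intro x y hxy h
      have h4 := (hJ1 _ (hw' (c x)) _ (hw' (c y)) (fun e => hxy (Prod.ext_iff.mp e).1)).2.1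
      exact h4 (heH.trans (him x) (heH.trans h (heH.symm (him y))))
    have hinj : Function.Injective (fun x => τ (c x) x) := by
      intro x y e
      have e' : τ (c x) x = τ (c y) y := e
      by_cases hxy : c x = c y
      · rw [hxy] at e'
        exact (τ (c y)).injective e'
      · exact absurd (by rw [e']; exact heH.refl _) (hsep x y hxy)
    apply hN
    refine ⟨Equiv.ofBijective _ (Finite.injective_iff_bijective.mp hinj), fun x y _ => ?_⟩
    show H (τ (c x) x) (τ (c y) y) ↔ G x y
    by_cases hxy : c x = c y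
    · rw [hxy]
      have hx := hmem x
      rw [hxy] at hx
      exact (hτ (c y)).2.2 x hx y (hmem y)
    · have h4 := hJ1 _ (hw' (c x)) _ (hw' (c y)) (fun e => hxy (Prod.ext_iff.mp e).1)
      rw [← hMH.both heH (him x) (him y) h4.2.1, hadj x y hxy]
      exact h4.2.2.1
  have hG1 : ((pe A A univ).filter (fun J => ∀ p ∈ J, SameT G c p.1 p.2)).card ≤
      (NR A G rG (PP rG ρG (cl G rG) k) univ).card := by
    have hcr : ∀ i, c (ρG (v i)) = i := by
      intro i
      rw [← (hrc _ _).mp (hρG.rel (v i)), hcv]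
    apply card_le_card_of_injOn (fun J => J.image (fun p => (p.1, ρG (v p.2))))
    · intro J hJ
      rw [mem_coe, mem_filter, Pool.Agent.H71.PO.mem_pe] at hJ
      obtain ⟨⟨hJ1, hJ2⟩, hJ3⟩ := hJ
      rw [mem_coe, mem_NR]
      refine ⟨?_, ?_, ?_⟩
      · intro p hp q hq hne
        rw [mem_image] at hp hq
        obtain ⟨p', hp', rfl⟩ := hp
        obtain ⟨q', hq', rfl⟩ := hq
        have hpq : p' ≠ q' := fun e => hne (by rw [e])
        obtain ⟨g1, g2, g3⟩ := hJ1 p' hp' q' hq' hpq
        refine ⟨g1, ?_, ?_⟩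
        · show ¬ rG (ρG (v p'.2)) (ρG (v q'.2))
          rw [hrc, hcr, hcr]
          exact g2
        · show (G (ρG (v p'.2)) (ρG (v q'.2)) ↔ A p'.1 q'.1) ∧
            (G (ρG (v q'.2)) (ρG (v p'.2)) ↔ A q'.1 p'.1)
          rw [hadj _ _ (by rw [hcr, hcr]; exact g2), hadj _ _ (by rw [hcr, hcr]; exact Ne.symm g2),
            hcr, hcr]
          exact g3
      · rw [image_image]
        exact hJ2
      · intro p hp
        rw [mem_image] at hp
        obtain ⟨p', hp', rfl⟩ := hp
        obtain ⟨τ, hτ1, hτ2⟩ := hJ3 p' hp'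
        rw [mem_PP]
        have hw : c (τ (v p'.1)) = p'.2 := (hτ1 _).mp (hcv _)
        refine ⟨(hρG.eq _ _ (hρG.rel _)).symm, τ (v p'.1), ?_, ?_⟩
        · show rG (ρG (v p'.2)) (τ (v p'.1))
          rw [hrc, hcr, hw]
        · show ty G (cls rG (τ (v p'.1))) (τ (v p'.1)) = ty G (cls rG (v p'.1)) (v p'.1)
          symm
          apply ty_eq τ
          refine ⟨fun x => ?_, rfl, fun x hx y hy => ?_⟩
          · rw [mem_cls, mem_cls, hrc, hrc, hcv, hw]
            exact eq_comm.trans ((hτ1 x).trans eq_comm)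
          · rw [mem_cls, hrc, hcv] at hx hy
            exact hτ2 x y hx.symm hy.symm
    · intro J hJ J' hJ' e
      have hinj : Function.Injective (fun p : I × I => (p.1, ρG (v p.2))) := by
        intro p q e
        have e1 : p.1 = q.1 := (Prod.ext_iff.mp e).1
        have e2 : c (ρG (v p.2)) = c (ρG (v q.2)) := congrArg c (Prod.ext_iff.mp e).2
        rw [hcr, hcr] at e2
        exact Prod.ext e1 e2
      exact image_injective hinj e
  have hb := bound heG heH (PG := PP rG ρG (cl G rG) k)
    (PH := PP rH ρH (cl H rH) k) (RG := univ.filter (fun w => ρG w = w))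
    (RH := univ.filter (fun w => ρH w = w))
    (fun p hp => mem_filter.mpr ⟨mem_univ _, (mem_PP.mp hp).1⟩)
    (fun p hp => mem_filter.mpr ⟨mem_univ _, (mem_PP.mp hp).1⟩) hRG hRH hkel hH0
    (fun i j w hi hj h1 h2 h3 => hD i j hi hj (same_of_PP hcv heG h1 h2) h3)
    (fun i j w hi hj h1 h2 h3 => hD i j hi hj (same_of_PP hcv heH h1 h2) h3) hDu
  have hle := NR_le_pe (A := A) (G := G) hρG c hrc hadj
    (P := PP rG ρG (cl G rG) k) (fun p hp => (mem_PP.mp hp).1) (T := SameT G c)
    (fun p hp => same_of_PP' hcv hp) D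
  have h6 := Nat.pow_le_pow_left hle 2
  have h7 := Nat.pow_le_pow_left hG1 2
  have h8 := Nat.mul_le_mul_right (2 ^ (Fintype.card I - D.card)) h7
  omega

/-- **The criterion.** -/
theorem criterion {A : I → I → Prop} {c : V → I} (hc : Function.Surjective c)
    (hadj : ∀ x y, c x ≠ c y → (G x y ↔ A (c x) (c y))) (hn : 4 ≤ Fintype.card V)
    {D : Finset I} (hD : ∀ i j, i ∉ D → j ∉ D → SameT G c i j →
      (∀ d ∈ D, (A i d ↔ A j d) ∧ (A d i ↔ A d j)) → i = j)
    (hnum : 4 * ((pe A A D).filter (fun J => ∀ p ∈ J, SameT G c p.1 p.2)).card ^ 2 <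
      ((pe A A univ).filter (fun J => ∀ p ∈ J, SameT G c p.1 p.2)).card ^ 2 *
        2 ^ (Fintype.card I - D.card))
    (hrec : ∀ (H : V → V → Prop) (π : V → Equiv.Perm V), Hypo G H π →
      ∃ rH : V → V → Prop, RelDeck π (fun x y => c x = c y) rH) :
    ∀ (H : V → V → Prop) (π : V → Equiv.Perm V), Hypo G H π → ¬ NonIso G H := by
  intro H π hH
  by_cases hDu : D = univ
  · exfalso
    rw [hDu, card_univ, Nat.sub_self, pow_zero, mul_one] at hnum
    omega
  · obtain ⟨rH, hrH⟩ := hrec H π hH
    exact core hc hadj hn hD hDu hnum hH hrH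

end Pool.Agent.H71.PQ
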