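import Pool.Agent.H71.PQ.Core
import Pool.Agent.H71.PO.Loc

set_option autoImplicit false
set_option linter.unusedSectionVars false

/-!
# The numbers of the pairs of vertices distinguished by `j` vertices are reconstructible, and the
relation: distinguished by fewer than `s` vertices
-/

namespace Pool.Agent.H71.PQ

open Finset Classical
open Pool.Agent.H71.PO (Hypo NonIso)

variable {V : Type} [Fintype V]

/-- the vertices which distinguish `x` and `y` -/
noncomputable def ds (X : V → V → Prop) (x y : V) : Finset V :=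
  univ.filter (fun z => z ≠ x ∧ z ≠ y ∧ ¬ ((X x z ↔ X y z) ∧ (X z x ↔ X z y)))

theorem mem_ds {X : V → V → Prop} {x y z : V} :
    z ∈ ds X x y ↔ z ≠ x ∧ z ≠ y ∧ ¬ ((X x z ↔ X y z) ∧ (X z x ↔ X z y)) := by
  unfold ds
  rw [mem_filter]
  exact and_iff_right (mem_univ _)

theorem ds_comm (X : V → V → Prop) (x y : V) : ds X x y = ds X y x := by
  ext z
  rw [mem_ds, mem_ds]
  tauto

theorem dst_ds (X : V → V → Prop) (x y : V) :
    Pool.Agent.H71.PO.dst X x y = (ds X x y).card := Pool.Agent.H71.PO.dst_eq X x y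

theorem ds_le (X : V → V → Prop) {x y : V} (h : x ≠ y) :
    (ds X x y).card + 2 ≤ Fintype.card V := by
  rw [← dst_ds]
  exact Pool.Agent.H71.PO.dst_le X h

/-- the number of the ordered pairs distinguished by `j` vertices -/
noncomputable def tj (X : V → V → Prop) (j : ℕ) : ℕ :=
  (univ.filter (fun p : V × V => p.1 ≠ p.2 ∧ (ds X p.1 p.2).card = j)).card

/-- the same for `X - u` -/
noncomputable def tju (X : V → V → Prop) (u : V) (j : ℕ) : ℕ :=
  (univ.filter (fun p : V × V => p.1 ≠ p.2 ∧ p.1 ≠ u ∧ p.2 ≠ u ∧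
    ((ds X p.1 p.2).erase u).card = j)).card

theorem count_u (X : V → V → Prop) (j : ℕ) {x y : V} (h : x ≠ y) :
    (univ.filter (fun u : V => x ≠ u ∧ y ≠ u ∧ ((ds X x y).erase u).card = j)).card =
      (Fintype.card V - 2 - j) * (if (ds X x y).card = j then 1 else 0) +
        (j + 1) * (if (ds X x y).card = j + 1 then 1 else 0) := by
  rw [← card_filter_add_card_filter_not (s := univ.filter (fun u : V => x ≠ u ∧ y ≠ u ∧
    ((ds X x y).erase u).card = j)) (fun u => u ∉ ds X x y)]
  rw [filter_filter, filter_filter]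
  congr 1
  · by_cases hj : (ds X x y).card = j
    · rw [if_pos hj, mul_one]
      have h1 : univ.filter (fun u : V => (x ≠ u ∧ y ≠ u ∧ ((ds X x y).erase u).card = j) ∧
          u ∉ ds X x y) = (insert x (insert y (ds X x y)))ᶜ := by
        ext u
        rw [mem_filter, mem_compl, mem_insert, mem_insert]
        constructor
        · rintro ⟨_, ⟨h1, h2, _⟩, h3⟩ h4
          rcases h4 with h4 | h4 | h4
          · exact h1 h4.symm
          · exact h2 h4.symm
          · exact h3 h4
        · intro h4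
          push Not at h4
          refine ⟨mem_univ _, ⟨h4.1.symm, h4.2.1.symm, ?_⟩, h4.2.2⟩
          rw [erase_eq_of_notMem h4.2.2]
          exact hj
      rw [h1, card_compl]
      have hy : y ∉ ds X x y := fun h' => (mem_ds.mp h').2.1 rfl
      have hx : x ∉ insert y (ds X x y) := by
        rw [mem_insert]
        rintro (h' | h')
        · exact h h'
        · exact (mem_ds.mp h').1 rfl
      rw [card_insert_of_notMem hx, card_insert_of_notMem hy, hj]
      omega
    · rw [if_neg hj, mul_zero, card_eq_zero, filter_eq_empty_iff]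
      rintro u _ ⟨⟨_, _, h3⟩, h4⟩
      rw [erase_eq_of_notMem h4] at h3
      exact hj h3
  · by_cases hj : (ds X x y).card = j + 1
    · rw [if_pos hj, mul_one, ← hj]
      congr 1
      ext u
      rw [mem_filter]
      constructor
      · rintro ⟨_, _, h4⟩
        exact not_not.mp h4
      · intro h4
        have h5 := mem_ds.mp h4
        refine ⟨mem_univ _, ⟨h5.1.symm, h5.2.1.symm, ?_⟩, not_not.mpr h4⟩
        rw [card_erase_of_mem h4, hj]
        rfl
    · rw [if_neg hj, mul_zero, card_eq_zero, filter_eq_empty_iff]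
      rintro u _ ⟨⟨_, _, h3⟩, h4⟩
      rw [not_not] at h4
      have h5 := card_erase_add_one h4
      omega

theorem tj_identity (X : V → V → Prop) (j : ℕ) :
    ∑ u : V, tju X u j = (Fintype.card V - 2 - j) * tj X j + (j + 1) * tj X (j + 1) := by
  have h1 : ∀ u : V, tju X u j = ∑ p ∈ univ.filter (fun p : V × V => p.1 ≠ p.2),
      if (p.1 ≠ u ∧ p.2 ≠ u ∧ ((ds X p.1 p.2).erase u).card = j) then 1 else 0 := by
    intro u
    unfold tju
    rw [← card_filter, filter_filter]
  simp_rw [h1]
  rw [sum_comm]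
  have h2 : ∀ p ∈ univ.filter (fun p : V × V => p.1 ≠ p.2),
      (∑ u : V, if (p.1 ≠ u ∧ p.2 ≠ u ∧ ((ds X p.1 p.2).erase u).card = j) then 1 else 0) =
      (Fintype.card V - 2 - j) * (if (ds X p.1 p.2).card = j then 1 else 0) +
        (j + 1) * (if (ds X p.1 p.2).card = j + 1 then 1 else 0) := by
    intro p hp
    rw [← card_filter, count_u X j (mem_filter.mp hp).2]
  rw [sum_congr rfl h2, sum_add_distrib, ← mul_sum, ← mul_sum, ← card_filter, ← card_filter,
    filter_filter, filter_filter]
  rfl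

theorem tj_le (X : V → V → Prop) (j : ℕ) : tj X j ≤ Fintype.card V * Fintype.card V := by
  unfold tj
  refine (card_filter_le _ _).trans ?_
  rw [card_univ, Fintype.card_prod]

variable {G H : V → V → Prop} {π : V → Equiv.Perm V}

theorem dsu_eq (hH : Hypo G H π) {u x y : V} (hx : x ≠ u) (hy : y ≠ u) :
    ((ds H (π u x) (π u y)).erase u).card = ((ds G x y).erase u).card := by
  symm
  apply card_bij (fun z _ => π u z)
  · intro z hz
    rw [mem_erase, mem_ds] at hz ⊢
    obtain ⟨h1, h2, h3, h4⟩ := hz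
    refine ⟨fun e => h1 ((π u).injective (by rw [hH.fix]; exact e)),
      fun e => h2 ((π u).injective e), fun e => h3 ((π u).injective e), ?_⟩
    rw [hH.adj u x z hx h1, hH.adj u y z hy h1, hH.adj u z x h1 hx, hH.adj u z y h1 hy]
    exact h4
  · intro a _ b _ e
    exact (π u).injective e
  · intro z hz
    rw [mem_erase, mem_ds] at hz
    obtain ⟨h1, h2, h3, h4⟩ := hz
    have h0 : (π u).symm z ≠ u := by
      intro e
      rw [Equiv.symm_apply_eq, hH.fix] at e
      exact h1 e
    refine ⟨(π u).symm z, ?_, Equiv.apply_symm_apply _ _⟩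
    rw [mem_erase, mem_ds]
    refine ⟨h0, ?_, ?_, ?_⟩
    · intro e
      apply h2
      rw [← e, Equiv.apply_symm_apply]
    · intro e
      apply h3
      rw [← e, Equiv.apply_symm_apply]
    · rw [← hH.adj u x _ hx h0, ← hH.adj u y _ hy h0, ← hH.adj u _ x h0 hx,
        ← hH.adj u _ y h0 hy, Equiv.apply_symm_apply]
      exact h4

theorem tju_eq (hH : Hypo G H π) (u : V) (j : ℕ) : tju G u j = tju H u j := by
  unfold tju
  apply card_bij (fun p _ => (π u p.1, π u p.2))
  · intro p hp
    rw [mem_filter] at hp ⊢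
    obtain ⟨_, h1, h2, h3, h4⟩ := hp
    refine ⟨mem_univ _, fun e => h1 ((π u).injective e), pi_ne hH h2, pi_ne hH h3, ?_⟩
    show ((ds H (π u p.1) (π u p.2)).erase u).card = j
    rw [dsu_eq hH h2 h3]
    exact h4
  · intro p _ q _ e
    have e1 := (Prod.ext_iff.mp e).1
    have e2 := (Prod.ext_iff.mp e).2
    exact Prod.ext ((π u).injective e1) ((π u).injective e2)
  · intro p hp
    rw [mem_filter] at hp
    obtain ⟨_, h1, h2, h3, h4⟩ := hp
    refine ⟨((π u).symm p.1, (π u).symm p.2), ?_, ?_⟩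
    · rw [mem_filter]
      refine ⟨mem_univ _, fun e => h1 ((π u).symm.injective e), symm_ne hH h2,
        symm_ne hH h3, ?_⟩
      rw [← h4, ← dsu_eq hH (symm_ne hH h2) (symm_ne hH h3), Equiv.apply_symm_apply,
        Equiv.apply_symm_apply]
    · simp

theorem tj_rel (hH : Hypo G H π) (j : ℕ) :
    (Fintype.card V - 2 - j) * tj G j + (j + 1) * tj G (j + 1) =
      (Fintype.card V - 2 - j) * tj H j + (j + 1) * tj H (j + 1) := by
  rw [← tj_identity, ← tj_identity]
  exact sum_congr rfl (fun u _ => tju_eq hH u j)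

theorem tj_eq (hH : Hypo G H π) (hn : 16 ≤ Fintype.card V) (j : ℕ) : tj G j = tj H j := by
  have h0 : tj G 0 = tj H 0 := by
    by_contra hne
    have e0 := tj_rel hH 0
    have e1 := tj_rel hH 1
    have e2 := tj_rel hH 2
    have b1 := tj_le G 3
    have b2 := tj_le H 3
    obtain ⟨m, hm⟩ : ∃ m, Fintype.card V = m + 16 := ⟨Fintype.card V - 16, by omega⟩
    rw [hm] at e0 e1 e2 b1 b2
    have s0 : m + 16 - 2 - 0 = m + 14 := by omega
    have s1 : m + 16 - 2 - 1 = m + 13 := by omega
    have s2 : m + 16 - 2 - 2 = m + 12 := by omega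
    rw [s0] at e0
    rw [s1] at e1
    rw [s2] at e2
    norm_num at e0 e1 e2
    have f0 : ((m : ℤ) + 14) * ((tj G 0 : ℤ) - tj H 0) = -((tj G 1 : ℤ) - tj H 1) := by
      have : ((m : ℤ) + 14) * tj G 0 + tj G 1 = (m + 14) * tj H 0 + tj H 1 := by
        exact_mod_cast e0
      linarith
    have f1 : ((m : ℤ) + 13) * ((tj G 1 : ℤ) - tj H 1) = -(2 * ((tj G 2 : ℤ) - tj H 2)) := by
      have : ((m : ℤ) + 13) * tj G 1 + 2 * tj G 2 = (m + 13) * tj H 1 + 2 * tj H 2 := by
        exact_mod_cast e1
      linarith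
    have f2 : ((m : ℤ) + 12) * ((tj G 2 : ℤ) - tj H 2) = -(3 * ((tj G 3 : ℤ) - tj H 3)) := by
      have : ((m : ℤ) + 12) * tj G 2 + 3 * tj G 3 = (m + 12) * tj H 2 + 3 * tj H 3 := by
        exact_mod_cast e2
      linarith
    set a0 : ℤ := (tj G 0 : ℤ) - tj H 0 with ha0
    set a1 : ℤ := (tj G 1 : ℤ) - tj H 1 with ha1
    set a2 : ℤ := (tj G 2 : ℤ) - tj H 2 with ha2
    set a3 : ℤ := (tj G 3 : ℤ) - tj H 3 with ha3
    have g : ((m : ℤ) + 12) * (m + 13) * (m + 14) * a0 = -(6 * a3) := by
      have g1 : ((m : ℤ) + 12) * (m + 13) * (m + 14) * a0 =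
        (m + 12) * ((m + 13) * ((m + 14) * a0)) := by ring
      rw [g1, f0]
      have g2 : ((m : ℤ) + 13) * -a1 = 2 * a2 := by linarith
      rw [g2]
      have g3 : ((m : ℤ) + 12) * (2 * a2) = 2 * ((m + 12) * a2) := by ring
      rw [g3, f2]
      ring
    have ha0' : a0 ≠ 0 := by
      intro e
      apply hne
      have : (tj G 0 : ℤ) = tj H 0 := by linarith
      exact_mod_cast this
    have c1 : (a3 : ℤ) ≤ (m + 16) * (m + 16) := by
      have : ((tj G 3 : ℕ) : ℤ) ≤ (m + 16) * (m + 16) := by exact_mod_cast b1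
      have h' : (0 : ℤ) ≤ tj H 3 := Int.natCast_nonneg _
      linarith
    have c2 : -(a3 : ℤ) ≤ (m + 16) * (m + 16) := by
      have : ((tj H 3 : ℕ) : ℤ) ≤ (m + 16) * (m + 16) := by exact_mod_cast b2
      have h' : (0 : ℤ) ≤ tj G 3 := Int.natCast_nonneg _
      linarith
    have hm0 : (0 : ℤ) ≤ m := Int.natCast_nonneg _
    have hpos : (0 : ℤ) ≤ ((m : ℤ) + 12) * (m + 13) * (m + 14) := by positivity
    have hbig : 6 * (((m : ℤ) + 16) * (m + 16)) < ((m : ℤ) + 12) * (m + 13) * (m + 14) := by
      have hm2 : (0 : ℤ) ≤ (m : ℤ) * m := by positivity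
      have hm3 : (0 : ℤ) ≤ (m : ℤ) * m * m := by positivity
      nlinarith
    rcases lt_or_gt_of_ne ha0' with h | h
    · have h1 : a0 ≤ -1 := by omega
      have h2 := mul_le_mul_of_nonneg_left h1 hpos
      linarith
    · have h1 : 1 ≤ a0 := by omega
      have h2 := mul_le_mul_of_nonneg_left h1 hpos
      linarith
  induction' j with j ih
  · exact h0
  · have h1 := tj_rel hH j
    rw [ih] at h1
    exact Nat.eq_of_mul_eq_mul_left (by omega) (Nat.add_left_cancel h1)

/-! ### The relation -/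

/-- `x = y` or `x` and `y` are distinguished by fewer than `s` vertices -/
def rl (X : V → V → Prop) (s : ℕ) (x y : V) : Prop := x = y ∨ (ds X x y).card < s

theorem rl_symm {X : V → V → Prop} {s : ℕ} {x y : V} (h : rl X s x y) : rl X s y x := by
  rcases h with h | h
  · exact Or.inl h.symm
  · right
    rw [ds_comm]
    exact h

theorem no_s {X : V → V → Prop} {s : ℕ} (h : tj X s = 0) {x y : V} (hxy : x ≠ y) :
    (ds X x y).card ≠ s := by
  intro e
  unfold tj at h
  rw [card_eq_zero, filter_eq_empty_iff] at h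
  exact h (mem_univ (x, y)) ⟨hxy, e⟩

theorem cut {X : V → V → Prop} {s : ℕ} (h : tj X s = 0) {x y : V} (hxy : x ≠ y) (u : V) :
    ((ds X x y).erase u).card < s ↔ (ds X x y).card < s := by
  have h1 := no_s h hxy
  have h2 : (ds X x y).card - 1 ≤ ((ds X x y).erase u).card := pred_card_le_card_erase
  have h3 := card_erase_le (s := ds X x y) (a := u)
  omega

theorem rl_deck (hH : Hypo G H π) {s : ℕ} (hG : tj G s = 0) (hH' : tj H s = 0) {u x y : V}
    (hx : x ≠ u) (hy : y ≠ u) : rl H s (π u x) (π u y) ↔ rl G s x y := by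
  by_cases hxy : x = y
  · rw [hxy]
    exact iff_of_true (Or.inl rfl) (Or.inl rfl)
  · have hne : π u x ≠ π u y := fun e => hxy ((π u).injective e)
    have h1 := cut hG hxy u
    have h2 := cut hH' hne u
    rw [dsu_eq hH hx hy] at h2
    unfold rl
    rw [← h1, ← h2]
    constructor
    · rintro (h | h)
      · exact absurd h hne
      · exact Or.inr h
    · rintro (h | h)
      · exact absurd h hxy
      · exact Or.inr h

/-- **Recognition by distances.** -/
theorem rl_rel (hH : Hypo G H π) {s : ℕ} (hG : tj G s = 0) (hH' : tj H s = 0) :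
    RelDeck π (rl G s) (rl H s) := fun _ _ _ hx hy => rl_deck hH hG hH' hx hy

variable {I : Type} [Fintype I]

theorem rl_iff {c : V → I} {s : ℕ} (hin : ∀ x y, x ≠ y → c x = c y → (ds G x y).card < s)
    (hout : ∀ x y, c x ≠ c y → s < (ds G x y).card) (x y : V) : rl G s x y ↔ c x = c y := by
  constructor
  · rintro (h | h)
    · rw [h]
    · by_contra hne
      have := hout x y hne
      omega
  · intro h
    by_cases hxy : x = y
    · exact Or.inl hxy
    · exact Or.inr (hin x y hxy h)

theorem tj_zero {c : V → I} {s : ℕ} (hin : ∀ x y, x ≠ y → c x = c y → (ds G x y).card < s)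
    (hout : ∀ x y, c x ≠ c y → s < (ds G x y).card) : tj G s = 0 := by
  unfold tj
  rw [card_eq_zero, filter_eq_empty_iff]
  rintro p _ ⟨h1, h2⟩
  by_cases h : c p.1 = c p.2
  · have := hin _ _ h1 h
    omega
  · have := hout _ _ h
    omega

theorem gap_rel {c : V → I} {s : ℕ} (hn : 16 ≤ Fintype.card V)
    (hin : ∀ x y, x ≠ y → c x = c y → (ds G x y).card < s)
    (hout : ∀ x y, c x ≠ c y → s < (ds G x y).card) (hH : Hypo G H π) :
    RelDeck π (fun x y => c x = c y) (rl H s) := by
  have h1 := tj_zero (G := G) hin hout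
  have h2 : tj H s = 0 := by rw [← tj_eq hH hn, h1]
  intro u x y hx hy
  rw [rl_rel hH h1 h2 u x y hx hy]
  exact rl_iff hin hout x y

end Pool.Agent.H71.PQ
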