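import Pool.Agent.H71.PQ.Prime
import Pool.Agent.H71.PQ.Dist

set_option autoImplicit false
set_option linter.unusedSectionVars false

/-!
# The theorem on substitutions
-/

namespace Pool.Agent.H71.PQ

open Finset Classical
open Pool.Agent.H71.PO (Hypo NonIso)
open Pool.Agent.H71.LOC (Comp)
open Pool.Agent.H71.PO (pe mem_pe PC dst dst_eq)

variable {V I : Type} [Fintype V] [Fintype I]

/-! ### Isomorphic parts -/

theorem same_iff (G : V → V → Prop) (c : V → I) (i j : I) :
    SameT G c i j ↔ ∃ e : {x // c x = i} ≃ {x // c x = j},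
      ∀ a b, (G (e a) (e b) ↔ G (a : V) (b : V)) := by
  constructor
  · rintro ⟨τ, h1, h2⟩
    refine ⟨τ.subtypeEquiv (fun x => h1 x), ?_⟩
    rintro ⟨a, ha⟩ ⟨b, hb⟩
    exact h2 a b ha hb
  · rintro ⟨e, he⟩
    refine ⟨e.extendSubtype, fun x => ?_, fun x y hx hy => ?_⟩
    · by_cases hx : c x = i
      · exact iff_of_true hx (e.extendSubtype_mem x hx)
      · exact iff_of_false hx (e.extendSubtype_not_mem x hx)
    · rw [e.extendSubtype_apply_of_mem x hx, e.extendSubtype_apply_of_mem y hy]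
      exact he ⟨x, hx⟩ ⟨y, hy⟩

/-- the embeddings of the relation on `D` which satisfy `T` -/
def EmbT (A : I → I → Prop) (T : I → I → Prop) (D : Finset I) : Type :=
  {φ : D → I // Function.Injective φ ∧ (∀ x y, (A (φ x) (φ y) ↔ A (x : I) (y : I))) ∧
    ∀ i : D, T i (φ i)}

/-- the automorphisms which satisfy `T` -/
def AutT (A : I → I → Prop) (T : I → I → Prop) : Type :=
  {φ : Equiv.Perm I // (∀ x y, (A (φ x) (φ y) ↔ A x y)) ∧ ∀ i, T i (φ i)}

theorem peT_le_emb (A : I → I → Prop) (hA : ∀ x, ¬ A x x) (T : I → I → Prop) (D : Finset I) :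
    ((pe A A D).filter (fun J => ∀ p ∈ J, T p.1 p.2)).card ≤ Nat.card (EmbT A T D) := by
  have hfin : Finite (EmbT A T D) := by
    unfold EmbT
    infer_instance
  have : Fintype (EmbT A T D) := Fintype.ofFinite _
  rw [Nat.card_eq_fintype_card, ← card_univ]
  let g : EmbT A T D → Finset (I × I) :=
    fun φ => univ.image (fun x : D => ((x : I), φ.1 x))
  have hsub : (pe A A D).filter (fun J => ∀ p ∈ J, T p.1 p.2) ⊆ univ.image g := by
    intro J hJ
    rw [mem_filter, mem_pe] at hJ
    obtain ⟨hJ, hJT⟩ := hJ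
    have h1 : ∀ x : D, ∃ w, ((x : I), w) ∈ J := by
      intro x
      have : (x : I) ∈ J.image Prod.fst := by rw [hJ.2]; exact x.2
      rw [mem_image] at this
      obtain ⟨p, hp, hpx⟩ := this
      exact ⟨p.2, by rw [← hpx]; exact hp⟩
    choose f hf using h1
    have hne : ∀ x y : D, x ≠ y → ((x : I), f x) ≠ ((y : I), f y) := by
      intro x y hxy e
      exact hxy (Subtype.ext (congrArg Prod.fst e))
    have hinj : Function.Injective f := by
      intro x y e
      by_contra hxy
      exact (hJ.1 _ (hf x) _ (hf y) (hne x y hxy)).2.1 e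
    rw [mem_image]
    refine ⟨⟨f, hinj, fun x y => ?_, fun i => hJT _ (hf i)⟩, mem_univ _, ?_⟩
    · by_cases hxy : x = y
      · subst hxy
        exact iff_of_false (hA _) (hA _)
      · exact (hJ.1 _ (hf x) _ (hf y) (hne x y hxy)).2.2.1
    · ext p
      show p ∈ univ.image (fun x : D => ((x : I), f x)) ↔ p ∈ J
      rw [mem_image]
      constructor
      · rintro ⟨x, _, rfl⟩
        exact hf x
      · intro hp
        have hpD : p.1 ∈ D := by
          rw [← hJ.2]
          exact mem_image_of_mem _ hp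
        refine ⟨⟨p.1, hpD⟩, mem_univ _, ?_⟩
        show (p.1, f ⟨p.1, hpD⟩) = p
        exact Pool.Agent.H71.PO.fst_inj hJ.1 (hf ⟨p.1, hpD⟩) hp rfl
  exact (card_le_card hsub).trans card_image_le

theorem autT_le_pe (A : I → I → Prop) (T : I → I → Prop) :
    Nat.card (AutT A T) ≤ ((pe A A univ).filter (fun J => ∀ p ∈ J, T p.1 p.2)).card := by
  have hfin : Finite (AutT A T) := by
    unfold AutT
    infer_instance
  have : Fintype (AutT A T) := Fintype.ofFinite _
  rw [Nat.card_eq_fintype_card, ← card_univ]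
  apply card_le_card_of_injOn (fun φ : AutT A T => univ.image (fun x : I => (x, φ.1 x)))
  · intro φ _
    rw [mem_coe, mem_filter, mem_pe]
    refine ⟨⟨?_, ?_⟩, ?_⟩
    · intro p hp q hq hne
      rw [mem_image] at hp hq
      obtain ⟨x, _, rfl⟩ := hp
      obtain ⟨y, _, rfl⟩ := hq
      have hxy : x ≠ y := fun e => hne (by rw [e])
      exact ⟨hxy, fun e => hxy (φ.1.injective e), φ.2.1 x y, φ.2.1 y x⟩
    · rw [image_image]
      ext x
      rw [mem_image]
      exact ⟨fun _ => mem_univ _, fun _ => ⟨x, mem_univ _, rfl⟩⟩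
    · intro p hp
      rw [mem_image] at hp
      obtain ⟨x, _, rfl⟩ := hp
      exact φ.2.2 x
  · intro φ _ ψ _ h
    apply Subtype.ext
    apply Equiv.ext
    intro x
    have h1 : (x, φ.1 x) ∈ univ.image (fun x : I => (x, ψ.1 x)) := by
      have h2 : (x, φ.1 x) ∈ univ.image (fun x : I => (x, φ.1 x)) := mem_image_of_mem _ (mem_univ x)
      have h3 : univ.image (fun x : I => (x, φ.1 x)) = univ.image (fun x : I => (x, ψ.1 x)) := h
      rw [h3] at h2
      exact h2
    rw [mem_image] at h1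
    obtain ⟨y, _, hy⟩ := h1
    have e1 : y = x := congrArg Prod.fst hy
    have e2 : ψ.1 y = φ.1 x := congrArg Prod.snd hy
    rw [e1] at e2
    exact e2.symm

/-! ### Recognition -/

variable {G : V → V → Prop}

/-- the ways in which the partition can be recognised -/
def Rcg (G : V → V → Prop) (A : I → I → Prop) (c : V → I) : Prop :=
  Function.Injective c ∨
  (16 ≤ Fintype.card V ∧ ∃ s : ℕ, (∀ x y, x ≠ y → c x = c y → (ds G x y).card < s) ∧
    (∀ x y, c x ≠ c y → s < (ds G x y).card)) ∨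
  (∃ s : ℕ, (∀ i, (univ.filter (fun v => c v = i)).card ≤ s) ∧ BigMod G c s) ∨
  (5 ≤ Fintype.card I ∧
    ∀ D : Finset I, (univ.filter (fun v => c v ∈ D)).card ≤ 2 → PW A D)

theorem rcg_rel {A : I → I → Prop} {c : V → I} (hc : Function.Surjective c)
    (hadj : ∀ x y, c x ≠ c y → (G x y ↔ A (c x) (c y))) (hR : Rcg G A c)
    (H : V → V → Prop) (π : V → Equiv.Perm V) (hH : Hypo G H π) :
    ∃ rH : V → V → Prop, RelDeck π (fun x y => c x = c y) rH := by
  rcases hR with h | ⟨h1, s, h2, h3⟩ | ⟨s, h1, h2⟩ | ⟨h1, h2⟩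
  · refine ⟨fun x y => x = y, fun u x y _ _ => ?_⟩
    show π u x = π u y ↔ c x = c y
    rw [(π u).injective.eq_iff, h.eq_iff]
  · exact ⟨_, gap_rel h1 h2 h3 hH⟩
  · exact ⟨_, size_rel hadj h1 h2 hH⟩
  · obtain ⟨h3, h4⟩ := prime_big hc hadj h1 h2
    exact ⟨_, size_rel hadj h3 h4 hH⟩

/-- **The general criterion.** -/
theorem main1 {A : I → I → Prop} (hA : ∀ x, ¬ A x x) {c : V → I} (hc : Function.Surjective c)
    (hadj : ∀ x y, c x ≠ c y → (G x y ↔ A (c x) (c y))) (hn : 4 ≤ Fintype.card V)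
    (hR : Rcg G A c) {D : Finset I}
    (hD : ∀ i j, i ∉ D → j ∉ D → SameT G c i j →
      (∀ d ∈ D, (A i d ↔ A j d) ∧ (A d i ↔ A d j)) → i = j)
    (hnum : 4 * Nat.card (EmbT A (SameT G c) D) ^ 2 <
      Nat.card (AutT A (SameT G c)) ^ 2 * 2 ^ (Fintype.card I - D.card)) :
    ∀ (H : V → V → Prop) (π : V → Equiv.Perm V), Hypo G H π → ¬ NonIso G H := by
  apply criterion hc hadj hn (D := D) hD ?_ (rcg_rel hc hadj hR)
  have h1 := Nat.pow_le_pow_left (peT_le_emb A hA (SameT G c) D) 2
  have h2 := Nat.mul_le_mul_right (2 ^ (Fintype.card I - D.card))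
    (Nat.pow_le_pow_left (autT_le_pe A (SameT G c)) 2)
  exact lt_of_le_of_lt (Nat.mul_le_mul_left 4 h1) (lt_of_lt_of_le hnum h2)

/-- the form without automorphisms, for the uncoloured number of embeddings -/
theorem main2 {A : I → I → Prop} {c : V → I} (hc : Function.Surjective c)
    (hadj : ∀ x y, c x ≠ c y → (G x y ↔ A (c x) (c y))) (hn : 4 ≤ Fintype.card V)
    (hR : Rcg G A c) {D : Finset I}
    (hD : ∀ i j, i ∉ D → j ∉ D → SameT G c i j →
      (∀ d ∈ D, (A i d ↔ A j d) ∧ (A d i ↔ A d j)) → i = j)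
    (hnum : 4 * (pe A A D).card ^ 2 < 2 ^ (Fintype.card I - D.card)) :
    ∀ (H : V → V → Prop) (π : V → Equiv.Perm V), Hypo G H π → ¬ NonIso G H := by
  apply criterion hc hadj hn (D := D) hD ?_ (rcg_rel hc hadj hR)
  have h1 := Nat.pow_le_pow_left (card_filter_le (pe A A D)
    (fun J => ∀ p ∈ J, SameT G c p.1 p.2)) 2
  have h2 : 1 ≤ ((pe A A univ).filter (fun J => ∀ p ∈ J, SameT G c p.1 p.2)).card := by
    apply card_pos.mpr
    refine ⟨univ.image (fun i => (i, i)), ?_⟩
    rw [mem_filter, mem_pe]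
    refine ⟨⟨?_, ?_⟩, ?_⟩
    · intro p hp q hq hne
      rw [mem_image] at hp hq
      obtain ⟨i, _, rfl⟩ := hp
      obtain ⟨j, _, rfl⟩ := hq
      have hij : i ≠ j := fun e => hne (by rw [e])
      exact ⟨hij, hij, Iff.rfl, Iff.rfl⟩
    · rw [image_image]
      ext i
      rw [mem_image]
      exact ⟨fun _ => mem_univ _, fun _ => ⟨i, mem_univ _, rfl⟩⟩
    · intro p hp
      rw [mem_image] at hp
      obtain ⟨i, _, rfl⟩ := hp
      exact ⟨Equiv.refl V, fun x => Iff.rfl, fun x y _ _ => Iff.rfl⟩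
  have h3 := Nat.mul_le_mul_right (2 ^ (Fintype.card I - D.card)) (Nat.pow_le_pow_left h2 2)
  rw [one_pow, one_mul] at h3
  omega

/-- **Isomorphic parts distinguished by many vertices of the quotient.** -/
theorem main3 {A : I → I → Prop} {c : V → I} (hc : Function.Surjective c)
    (hadj : ∀ x y, c x ≠ c y → (G x y ↔ A (c x) (c y))) (hn : 4 ≤ Fintype.card V)
    (hR : Rcg G A c) (h3 : 3 ≤ Fintype.card I)
    (h : ∀ i j : I, i ≠ j → SameT G c i j →
      8 * Real.log (Fintype.card I) ^ 2 ≤ (dst A i j : ℝ)) :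
    ∀ (H : V → V → Prop) (π : V → Equiv.Perm V), Hypo G H π → ¬ NonIso G H := by
  obtain ⟨D, hD, hnum⟩ := Pool.Agent.H71.PO.exLocT A (SameT G c) h3 h
  exact main2 hc hadj hn hR hD hnum

/-! ### Sizes of parts -/

theorem ds_cross {A : I → I → Prop} {c : V → I}
    (hadj : ∀ x y, c x ≠ c y → (G x y ↔ A (c x) (c y))) (x y : V) :
    ∑ k ∈ ds A (c x) (c y), (univ.filter (fun v => c v = k)).card ≤ (ds G x y).card := by
  rw [← card_biUnion]
  · apply card_le_card
    intro z hz
    rw [mem_biUnion] at hz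
    obtain ⟨k, hk, hzk⟩ := hz
    have hzk' := (mem_filter.mp hzk).2
    rw [← hzk', mem_ds] at hk
    obtain ⟨h1, h2, h3⟩ := hk
    rw [mem_ds]
    refine ⟨fun e => h1 (by rw [e]), fun e => h2 (by rw [e]), ?_⟩
    rw [hadj x z (Ne.symm h1), hadj y z (Ne.symm h2), hadj z x h1, hadj z y h2]
    exact h3
  · intro a _ b _ hab
    refine disjoint_left.mpr ?_
    intro z h1 h2
    exact hab ((mem_filter.mp h1).2.symm.trans (mem_filter.mp h2).2)

theorem ds_inner {A : I → I → Prop} {c : V → I}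
    (hadj : ∀ x y, c x ≠ c y → (G x y ↔ A (c x) (c y))) {x y : V} (hxy : x ≠ y)
    (h : c x = c y) :
    (ds G x y).card + 2 ≤ (univ.filter (fun v => c v = c x)).card := by
  have h1 : ds G x y ⊆ ((univ.filter (fun v => c v = c x)).erase x).erase y := by
    intro z hz
    rw [mem_ds] at hz
    rw [mem_erase, mem_erase, mem_filter]
    refine ⟨hz.2.1, hz.1, mem_univ _, ?_⟩
    by_contra hne
    apply hz.2.2
    rw [hadj x z (fun e => hne e.symm), hadj y z (fun e => hne (by rw [h]; exact e.symm)),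
      hadj z x hne, hadj z y (fun e => hne (by rw [h]; exact e)), h]
    exact ⟨Iff.rfl, Iff.rfl⟩
  have h2 := card_le_card h1
  have hx : x ∈ univ.filter (fun v => c v = c x) := mem_filter.mpr ⟨mem_univ _, rfl⟩
  have hy : y ∈ (univ.filter (fun v => c v = c x)).erase x :=
    mem_erase.mpr ⟨hxy.symm, mem_filter.mpr ⟨mem_univ _, h.symm⟩⟩
  have h3 := card_erase_add_one hx
  have h4 := card_erase_add_one hy
  omega

theorem big_of_dst {A : I → I → Prop} (h2 : 2 ≤ Fintype.card I) {m : ℕ}
    (hm : 8 * Real.log (Fintype.card I) ^ 2 ≤ (m : ℝ))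
    (h : ∀ i j : I, i ≠ j → m ≤ dst A i j) : 2 ≤ m ∧ 16 ≤ Fintype.card I := by
  obtain ⟨i, j, hij⟩ := Fintype.one_lt_card_iff.mp (by omega : 1 < Fintype.card I)
  have hd := h i j hij
  have hd2 := Pool.Agent.H71.PO.dst_le A hij
  have hl2 := Real.log_two_gt_d9
  have hlog : Real.log 2 ≤ Real.log (Fintype.card I) :=
    Real.log_le_log (by norm_num) (by exact_mod_cast h2)
  have hm1 : (3 : ℝ) < m := by
    refine lt_of_lt_of_le ?_ hm
    nlinarith
  have hm2 : 3 < m := by exact_mod_cast hm1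
  refine ⟨by omega, ?_⟩
  by_contra hlt
  have h6 : 4 ≤ Fintype.card I := by omega
  have hlog4 : Real.log 4 ≤ Real.log (Fintype.card I) :=
    Real.log_le_log (by norm_num) (by exact_mod_cast h6)
  have e4 : Real.log 4 = 2 * Real.log 2 := by
    have : (4 : ℝ) = 2 ^ (2 : ℕ) := by norm_num
    rw [this, Real.log_pow]
    norm_num
  have hm3 : (14 : ℝ) < m := by
    refine lt_of_lt_of_le ?_ hm
    nlinarith
  have hm4 : 14 < m := by exact_mod_cast hm3
  omega

/-- **Twins, or parts of comparable sizes.** -/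
theorem main5 {A : I → I → Prop} {c : V → I} (hc : Function.Surjective c)
    (hadj : ∀ x y, c x ≠ c y → (G x y ↔ A (c x) (c y))) (h2 : 2 ≤ Fintype.card I)
    {m : ℕ}
    (hm : 8 * Real.log (Fintype.card I) ^ 2 ≤ (m : ℝ))
    (h : ∀ i j : I, i ≠ j → m ≤ dst A i j)
    (hP : (∀ x y, x ≠ y → c x = c y → dst G x y = 0) ∨
      (∀ i j : I, (univ.filter (fun v => c v = i)).card ≤
        m * (univ.filter (fun v => c v = j)).card)) :
    ∀ (H : V → V → Prop) (π : V → Equiv.Perm V), Hypo G H π → ¬ NonIso G H := by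
  obtain ⟨hm2, hK⟩ := big_of_dst h2 hm h
  have hKn : Fintype.card I ≤ Fintype.card V := Fintype.card_le_of_surjective c hc
  have hpos : ∀ i : I, 1 ≤ (univ.filter (fun v => c v = i)).card := by
    intro i
    obtain ⟨x, hx⟩ := hc i
    exact card_pos.mpr ⟨x, mem_filter.mpr ⟨mem_univ _, hx⟩⟩
  have hR : Rcg G A c := by
    right
    left
    refine ⟨by omega, ?_⟩
    rcases hP with hP | hP
    · refine ⟨1, fun x y hxy hxy' => ?_, fun x y hxy => ?_⟩
      · have := hP x y hxy hxy'
        rw [dst_ds] at this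
        omega
      · have h3 := h (c x) (c y) hxy
        rw [dst_ds] at h3
        have h4 := ds_cross hadj x y
        have h5 : ∑ k ∈ ds A (c x) (c y), 1 ≤
            ∑ k ∈ ds A (c x) (c y), (univ.filter (fun v => c v = k)).card :=
          sum_le_sum (fun k _ => hpos k)
        rw [sum_const, smul_eq_mul, mul_one] at h5
        omega
    · -- the largest part
      obtain ⟨i0, _, hi0⟩ := exists_max_image (univ : Finset I)
        (fun i => (univ.filter (fun v => c v = i)).card)
        (by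
          obtain ⟨x⟩ : Nonempty I := Fintype.card_pos_iff.mp (by omega)
          exact ⟨x, mem_univ _⟩)
      set t := (univ.filter (fun v => c v = i0)).card with ht
      have ht1 : 1 ≤ t := hpos i0
      refine ⟨t - 1, fun x y hxy hxy' => ?_, fun x y hxy => ?_⟩
      · have h3 := ds_inner hadj hxy hxy'
        have h4 : (univ.filter (fun v => c v = c x)).card ≤ t := hi0 (c x) (mem_univ _)
        omega
      · have h3 := h (c x) (c y) hxy
        rw [dst_ds] at h3
        have h4 := ds_cross hadj x y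
        have h5 : m * t ≤ m * ∑ k ∈ ds A (c x) (c y), (univ.filter (fun v => c v = k)).card := by
          calc m * t ≤ (ds A (c x) (c y)).card * t := Nat.mul_le_mul_right _ h3
            _ = ∑ k ∈ ds A (c x) (c y), t := by rw [sum_const, smul_eq_mul]
            _ ≤ ∑ k ∈ ds A (c x) (c y), m * (univ.filter (fun v => c v = k)).card :=
                sum_le_sum (fun k _ => hP i0 k)
            _ = _ := by rw [mul_sum]
        have h6 : t ≤ ∑ k ∈ ds A (c x) (c y), (univ.filter (fun v => c v = k)).card :=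
          Nat.le_of_mul_le_mul_left h5 (by omega)
        omega
  have hn : 4 ≤ Fintype.card V := by omega
  exact main3 hc hadj hn hR (by omega)
    (fun i j hij _ => hm.trans (by exact_mod_cast h i j hij))

end Pool.Agent.H71.PQ
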