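import Pool.Agent.H71.PO.Emb

set_option autoImplicit false
set_option linter.unusedSectionVars false

/-!
# Kelly's lemma for coloured quotients

`r` is an equivalence relation on the vertices of a graph `X`, and `cl` is a colouring of the
vertices. The sets `J` of pairs are embeddings of a set `S` of labels into `X`, which map distinct
labels to inequivalent vertices, preserve adjacency and have prescribed colours `k`.
-/

namespace Pool.Agent.H71.PQ

open Finset Classical
open Pool.Agent.H71.PO (Hypo NonIso)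
open Pool.Agent.H71.LOC (Comp)

variable {V I C : Type}

/-- the two pairs can belong to one embedding -/
def PR (A : I → I → Prop) (X : V → V → Prop) (r : V → V → Prop) (p q : I × V) : Prop :=
  p.1 ≠ q.1 ∧ ¬ r p.2 q.2 ∧ ((X p.2 q.2 ↔ A p.1 q.1) ∧ (X q.2 p.2 ↔ A q.1 p.1))

variable [Fintype V] [Fintype I]

/-- a coloured graph with an equivalence relation; `clu u w` is the colour of `w` after the deletion
of `u` -/
structure Cls (r : V → V → Prop) (cl : V → C) (clu : V → V → C) (coef : C → C → ℕ)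
    (sz : C → ℕ) : Prop where
  eqv : Equivalence r
  far : ∀ w u, ¬ r w u → clu u w = cl w
  count : ∀ w c, (univ.filter (fun u => u ≠ w ∧ r w u ∧ clu u w = c)).card = coef (cl w) c
  size : ∀ w, (univ.filter (fun y => r w y)).card = sz (cl w)
  step : ∀ c c', coef c c' ≠ 0 → sz c = sz c' + 1

/-- embeddings -/
noncomputable def EJ (A : I → I → Prop) (X : V → V → Prop) (r : V → V → Prop) (S : Finset I) :
    Finset (Finset (I × V)) :=
  univ.filter (fun J => Comp (PR A X r) J ∧ J.image Prod.fst = S)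

theorem mem_EJ {A : I → I → Prop} {X : V → V → Prop} {r : V → V → Prop} {S : Finset I}
    {J : Finset (I × V)} : J ∈ EJ A X r S ↔ Comp (PR A X r) J ∧ J.image Prod.fst = S := by
  unfold EJ
  rw [mem_filter]
  exact and_iff_right (mem_univ _)

/-- embeddings with given colours -/
noncomputable def NJ (A : I → I → Prop) (X : V → V → Prop) (r : V → V → Prop) (cl : V → C)
    (S : Finset I) (k : I → C) : Finset (Finset (I × V)) :=
  (EJ A X r S).filter (fun J => ∀ p ∈ J, cl p.2 = k p.1)

/-- embeddings with given colours into `X - u` -/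
noncomputable def NU (A : I → I → Prop) (X : V → V → Prop) (r : V → V → Prop) (clu : V → V → C)
    (S : Finset I) (k : I → C) (u : V) : Finset (Finset (I × V)) :=
  (EJ A X r S).filter (fun J => ∀ p ∈ J, p.2 ≠ u ∧ clu u p.2 = k p.1)

theorem fst_inj {A : I → I → Prop} {X : V → V → Prop} {r : V → V → Prop} {J : Finset (I × V)}
    (h : Comp (PR A X r) J) : Set.InjOn Prod.fst (J : Set (I × V)) := by
  intro p hp q hq e
  by_contra hne
  exact (h p hp q hq hne).1 e

section one

variable {A : I → I → Prop} {X : V → V → Prop} {r : V → V → Prop} {cl : V → C}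
  {clu : V → V → C} {coef : C → C → ℕ} {sz : C → ℕ} {S : Finset I}

theorem card_classes (hX : Cls r cl clu coef sz) {J : Finset (I × V)}
    (hJ : J ∈ EJ A X r S) :
    (J.biUnion (fun p => univ.filter (fun y => r p.2 y))).card = ∑ p ∈ J, sz (cl p.2) := by
  rw [mem_EJ] at hJ
  rw [card_biUnion]
  · exact sum_congr rfl (fun p _ => hX.size p.2)
  · intro p hp q hq hne
    refine disjoint_left.mpr ?_
    intro y hy1 hy2
    rw [mem_filter] at hy1 hy2
    exact (hJ.1 p hp q hq hne).2.1 (hX.eqv.trans hy1.2 (hX.eqv.symm hy2.2))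

theorem sum_fst {J : Finset (I × V)} (hJ : J ∈ EJ A X r S) (g : I → ℕ) :
    ∑ p ∈ J, g p.1 = ∑ a ∈ S, g a := by
  rw [mem_EJ] at hJ
  rw [← hJ.2, sum_image]
  intro p hp q hq e
  exact fst_inj hJ.1 hp hq e

theorem card_U1 (hX : Cls r cl clu coef sz) (k : I → C) {J : Finset (I × V)}
    (hJ : J ∈ EJ A X r S) :
    (univ.filter (fun u => (∀ p ∈ J, p.2 ≠ u ∧ clu u p.2 = k p.1) ∧
      ∀ p ∈ J, ¬ r p.2 u)).card =
      if ∀ p ∈ J, cl p.2 = k p.1 then Fintype.card V - ∑ a ∈ S, sz (k a) else 0 := by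
  by_cases h : ∀ p ∈ J, cl p.2 = k p.1
  · rw [if_pos h]
    have h1 : univ.filter (fun u => (∀ p ∈ J, p.2 ≠ u ∧ clu u p.2 = k p.1) ∧
        ∀ p ∈ J, ¬ r p.2 u) = (J.biUnion (fun p => univ.filter (fun y => r p.2 y)))ᶜ := by
      ext u
      rw [mem_filter, mem_compl, mem_biUnion]
      constructor
      · rintro ⟨_, _, h2⟩ ⟨p, hp, hu⟩
        exact h2 p hp (mem_filter.mp hu).2
      · intro h2
        have h3 : ∀ p ∈ J, ¬ r p.2 u := fun p hp hr =>
          h2 ⟨p, hp, mem_filter.mpr ⟨mem_univ _, hr⟩⟩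
        refine ⟨mem_univ _, fun p hp => ⟨?_, ?_⟩, h3⟩
        · intro e
          apply h3 p hp
          rw [e]
          exact hX.eqv.refl u
        · rw [hX.far p.2 u (h3 p hp), h p hp]
    rw [h1, card_compl, card_classes hX hJ, ← sum_fst hJ]
    congr 1
    exact sum_congr rfl (fun p hp => by rw [h p hp])
  · rw [if_neg h, card_eq_zero, filter_eq_empty_iff]
    rintro u _ ⟨h1, h2⟩
    apply h
    intro p hp
    rw [← hX.far p.2 u (h2 p hp)]
    exact (h1 p hp).2

theorem card_U2 (hX : Cls r cl clu coef sz) (k : I → C) {J : Finset (I × V)}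
    (hJ : J ∈ EJ A X r S) :
    (univ.filter (fun u => (∀ p ∈ J, p.2 ≠ u ∧ clu u p.2 = k p.1) ∧
      ¬ ∀ p ∈ J, ¬ r p.2 u)).card =
      ∑ p ∈ J, if ∀ q ∈ J, q ≠ p → cl q.2 = k q.1 then coef (cl p.2) (k p.1) else 0 := by
  rw [mem_EJ] at hJ
  have h1 : univ.filter (fun u => (∀ p ∈ J, p.2 ≠ u ∧ clu u p.2 = k p.1) ∧
      ¬ ∀ p ∈ J, ¬ r p.2 u) = J.biUnion (fun p => univ.filter (fun u =>
        (∀ q ∈ J, q ≠ p → cl q.2 = k q.1) ∧ (u ≠ p.2 ∧ r p.2 u ∧ clu u p.2 = k p.1))) := by
    ext u
    rw [mem_filter, mem_biUnion]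
    constructor
    · rintro ⟨_, h1, h2⟩
      push Not at h2
      obtain ⟨p, hp, hr⟩ := h2
      refine ⟨p, hp, mem_filter.mpr ⟨mem_univ _, ?_, (h1 p hp).1.symm, hr, (h1 p hp).2⟩⟩
      intro q hq hqp
      have h3 : ¬ r q.2 u := fun h =>
        (hJ.1 q hq p hp hqp).2.1 (hX.eqv.trans h (hX.eqv.symm hr))
      rw [← hX.far q.2 u h3]
      exact (h1 q hq).2
    · rintro ⟨p, hp, hu⟩
      rw [mem_filter] at hu
      obtain ⟨_, h1, h2, h3, h4⟩ := hu
      refine ⟨mem_univ _, ?_, fun h => h p hp h3⟩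
      intro q hq
      by_cases hqp : q = p
      · rw [hqp]
        exact ⟨h2.symm, h4⟩
      · have h5 : ¬ r q.2 u := fun h =>
          (hJ.1 q hq p hp hqp).2.1 (hX.eqv.trans h (hX.eqv.symm h3))
        refine ⟨fun e => h5 (by rw [e]; exact hX.eqv.refl u), ?_⟩
        rw [hX.far q.2 u h5]
        exact h1 q hq hqp
  rw [h1, card_biUnion]
  · apply sum_congr rfl
    intro p hp
    by_cases h2 : ∀ q ∈ J, q ≠ p → cl q.2 = k q.1
    · rw [if_pos h2, ← hX.count]
      congr 1
      ext u
      rw [mem_filter, mem_filter]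
      exact ⟨fun h => ⟨h.1, h.2.2⟩, fun h => ⟨h.1, h2, h.2⟩⟩
    · rw [if_neg h2, card_eq_zero, filter_eq_empty_iff]
      rintro u _ ⟨h3, _⟩
      exact h2 h3
  · intro p hp q hq hne
    refine disjoint_left.mpr ?_
    intro y hy1 hy2
    rw [mem_filter] at hy1 hy2
    exact (hJ.1 p hp q hq hne).2.1 (hX.eqv.trans hy1.2.2.2.1 (hX.eqv.symm hy2.2.2.2.1))

theorem second (k : I → C) (T : Finset C) (hT : ∀ w, cl w ∈ T) {J : Finset (I × V)}
    (hJ : J ∈ EJ A X r S) :
    (∑ p ∈ J, if ∀ q ∈ J, q ≠ p → cl q.2 = k q.1 then coef (cl p.2) (k p.1) else 0) =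
      ∑ a ∈ S, ∑ c ∈ T, coef c (k a) *
        (if ∀ q ∈ J, cl q.2 = Function.update k a c q.1 then 1 else 0) := by
  rw [← sum_fst hJ]
  rw [mem_EJ] at hJ
  apply sum_congr rfl
  intro p hp
  have h1 : ∀ c, (∀ q ∈ J, cl q.2 = Function.update k p.1 c q.1) ↔
      (c = cl p.2 ∧ ∀ q ∈ J, q ≠ p → cl q.2 = k q.1) := by
    intro c
    constructor
    · intro h
      constructor
      · have := h p hp
        rw [Function.update_self] at this
        exact this.symm
      · intro q hq hqp
        have := h q hq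
        rw [Function.update_of_ne (hJ.1 q hq p hp hqp).1] at this
        exact this
    · rintro ⟨rfl, h⟩ q hq
      by_cases hqp : q = p
      · rw [hqp, Function.update_self]
      · rw [Function.update_of_ne (hJ.1 q hq p hp hqp).1]
        exact h q hq hqp
  rw [sum_eq_single (cl p.2)]
  · by_cases h2 : ∀ q ∈ J, q ≠ p → cl q.2 = k q.1
    · rw [if_pos h2, if_pos ((h1 _).mpr ⟨rfl, h2⟩), mul_one]
    · rw [if_neg h2, if_neg (fun h => h2 ((h1 _).mp h).2), mul_zero]
  · intro c _ hc
    rw [if_neg (fun h => hc ((h1 _).mp h).1), mul_zero]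
  · intro h
    exact absurd (hT p.2) h

theorem identity (hX : Cls r cl clu coef sz) (k : I → C) (T : Finset C) (hT : ∀ w, cl w ∈ T) :
    ∑ u : V, (NU A X r clu S k u).card =
      (Fintype.card V - ∑ a ∈ S, sz (k a)) * (NJ A X r cl S k).card +
        ∑ a ∈ S, ∑ c ∈ T, coef c (k a) * (NJ A X r cl S (Function.update k a c)).card := by
  have h1 : ∀ u : V, (NU A X r clu S k u).card =
      ∑ J ∈ EJ A X r S, if (∀ p ∈ J, p.2 ≠ u ∧ clu u p.2 = k p.1) then 1 else 0 := by
    intro u
    unfold NU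
    rw [card_filter]
  simp_rw [h1]
  rw [sum_comm]
  have h2 : ∀ J ∈ EJ A X r S,
      (∑ u : V, if (∀ p ∈ J, p.2 ≠ u ∧ clu u p.2 = k p.1) then 1 else 0) =
      (if ∀ p ∈ J, cl p.2 = k p.1 then Fintype.card V - ∑ a ∈ S, sz (k a) else 0) +
      ∑ a ∈ S, ∑ c ∈ T, coef c (k a) *
        (if ∀ q ∈ J, cl q.2 = Function.update k a c q.1 then 1 else 0) := by
    intro J hJ
    rw [← card_filter, ← card_U1 hX k hJ, ← second k T hT hJ, ← card_U2 hX k hJ]
    rw [← card_filter_add_card_filter_not (s := univ.filter (fun u : V =>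
      ∀ p ∈ J, p.2 ≠ u ∧ clu u p.2 = k p.1)) (fun u => ∀ p ∈ J, ¬ r p.2 u)]
    rw [filter_filter, filter_filter]
  rw [sum_congr rfl h2, sum_add_distrib]
  congr 1
  · unfold NJ
    rw [card_filter, mul_sum]
    apply sum_congr rfl
    intro J _
    split_ifs <;> simp
  · rw [sum_comm]
    apply sum_congr rfl
    intro a _
    rw [sum_comm]
    apply sum_congr rfl
    intro c _
    unfold NJ
    rw [card_filter, mul_sum]

/-- the vertices equivalent only to themselves -/
noncomputable def triv (r : V → V → Prop) : Finset V := univ.filter (fun u => ∀ y, r u y → y = u)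

theorem mem_triv {u : V} : u ∈ triv r ↔ ∀ y, r u y → y = u := by
  unfold triv
  rw [mem_filter]
  exact and_iff_right (mem_univ _)

theorem base (hX : Cls r cl clu coef sz) (k : I → C)
    (hk : ∑ a ∈ S, sz (k a) + 1 = Fintype.card V) :
    (NJ A X r cl S k).card = ∑ u ∈ triv r, (NU A X r clu S k u).card := by
  have h1 : ∀ u ∈ triv r, (NU A X r clu S k u).card =
      ∑ J ∈ NJ A X r cl S k, if (∀ p ∈ J, p.2 ≠ u) then 1 else 0 := by
    intro u hu
    rw [mem_triv] at hu
    have hfar : ∀ w, w ≠ u → ¬ r w u := fun w hw h => hw (hu w (hX.eqv.symm h))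
    rw [← card_filter]
    unfold NU NJ
    rw [filter_filter]
    congr 1
    ext J
    rw [mem_filter, mem_filter]
    constructor
    · rintro ⟨h1, h2⟩
      refine ⟨h1, fun p hp => ?_, fun p hp => (h2 p hp).1⟩
      rw [← hX.far p.2 u (hfar _ (h2 p hp).1)]
      exact (h2 p hp).2
    · rintro ⟨h1, h2, h3⟩
      refine ⟨h1, fun p hp => ⟨h3 p hp, ?_⟩⟩
      rw [hX.far p.2 u (hfar _ (h3 p hp))]
      exact h2 p hp
  rw [sum_congr rfl h1, sum_comm, card_eq_sum_ones]
  apply sum_congr rfl
  intro J hJ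
  unfold NJ at hJ
  rw [mem_filter] at hJ
  rw [← card_filter]
  symm
  rw [card_eq_one]
  have hc : ((J.biUnion (fun p => univ.filter (fun y => r p.2 y)))ᶜ).card = 1 := by
    rw [card_compl, card_classes hX hJ.1]
    have : ∑ p ∈ J, sz (cl p.2) = ∑ a ∈ S, sz (k a) := by
      rw [← sum_fst hJ.1]
      exact sum_congr rfl (fun p hp => by rw [hJ.2 p hp])
    rw [this]
    omega
  rw [card_eq_one] at hc
  obtain ⟨u, hu⟩ := hc
  refine ⟨u, ?_⟩
  have hmem : ∀ v, v ∈ (J.biUnion (fun p => univ.filter (fun y => r p.2 y)))ᶜ ↔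
      ∀ p ∈ J, ¬ r p.2 v := by
    intro v
    rw [mem_compl, mem_biUnion]
    constructor
    · intro h p hp hr
      exact h ⟨p, hp, mem_filter.mpr ⟨mem_univ _, hr⟩⟩
    · rintro h ⟨p, hp, hv⟩
      exact h p hp (mem_filter.mp hv).2
  ext v
  rw [mem_filter, mem_triv, mem_singleton]
  constructor
  · rintro ⟨h2, h3⟩
    have h4 : v ∈ (J.biUnion (fun p => univ.filter (fun y => r p.2 y)))ᶜ := by
      rw [hmem]
      intro p hp hr
      exact h3 p hp (h2 _ (hX.eqv.symm hr))
    rw [hu, mem_singleton] at h4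
    exact h4
  · rintro rfl
    have h4 : ∀ p ∈ J, ¬ r p.2 v := by
      rw [← hmem, hu, mem_singleton]
    refine ⟨fun y hy => ?_, fun p hp e => h4 p hp (by rw [e]; exact hX.eqv.refl v)⟩
    have h5 : y ∈ (J.biUnion (fun p => univ.filter (fun y => r p.2 y)))ᶜ := by
      rw [hmem]
      intro p hp hr
      exact h4 p hp (hX.eqv.trans hr (hX.eqv.symm hy))
    rw [hu, mem_singleton] at h5
    exact h5

end one

/-! ### Two graphs with the same cards -/

/-- the deck relations -/
structure Deck (G H : V → V → Prop) (π : V → Equiv.Perm V) (rG rH : V → V → Prop)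
    (cG cH : V → V → C) : Prop where
  hyp : Hypo G H π
  rel : ∀ u x y, x ≠ u → y ≠ u → (rH (π u x) (π u y) ↔ rG x y)
  col : ∀ u x, x ≠ u → cH u (π u x) = cG u x
  trv : triv rG = triv rH

/-- the image of an embedding under a permutation of the target -/
noncomputable def push (τ : Equiv.Perm V) (J : Finset (I × V)) : Finset (I × V) :=
  J.image (fun p => (p.1, τ p.2))

theorem push_push (τ : Equiv.Perm V) (J : Finset (I × V)) : push τ.symm (push τ J) = J := by
  unfold push
  rw [image_image]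
  have : ((fun p : I × V => (p.1, τ.symm p.2)) ∘ fun p : I × V => (p.1, τ p.2)) = id := by
    funext p
    simp
  rw [this, image_id]

theorem push_push' (τ : Equiv.Perm V) (J : Finset (I × V)) : push τ (push τ.symm J) = J := by
  have := push_push τ.symm J
  rwa [Equiv.symm_symm] at this

theorem push_mem {A : I → I → Prop} {X Y : V → V → Prop} {r r' : V → V → Prop}
    {c c' : V → V → C} {S : Finset I} {k : I → C} {τ : Equiv.Perm V} {u : V}
    (hu : τ u = u) (hadj : ∀ x y, x ≠ u → y ≠ u → (Y (τ x) (τ y) ↔ X x y))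
    (hrel : ∀ x y, x ≠ u → y ≠ u → (r' (τ x) (τ y) ↔ r x y))
    (hcol : ∀ x, x ≠ u → c' u (τ x) = c u x)
    {J : Finset (I × V)} (hJ : J ∈ NU A X r c S k u) :
    push τ J ∈ NU A Y r' c' S k u := by
  unfold NU at hJ ⊢
  rw [mem_filter, mem_EJ] at hJ ⊢
  obtain ⟨⟨h1, h2⟩, h3⟩ := hJ
  refine ⟨⟨?_, ?_⟩, ?_⟩
  · intro a ha b hb hab
    unfold push at ha hb
    rw [mem_image] at ha hb
    obtain ⟨p, hp, rfl⟩ := ha
    obtain ⟨q, hq, rfl⟩ := hb
    have hpq : p ≠ q := fun e => hab (by rw [e])
    obtain ⟨h4, h5, h6⟩ := h1 p hp q hq hpq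
    refine ⟨h4, ?_, ?_⟩
    · show ¬ r' (τ p.2) (τ q.2)
      rw [hrel _ _ (h3 p hp).1 (h3 q hq).1]
      exact h5
    · show (Y (τ p.2) (τ q.2) ↔ A p.1 q.1) ∧ (Y (τ q.2) (τ p.2) ↔ A q.1 p.1)
      rw [hadj _ _ (h3 p hp).1 (h3 q hq).1, hadj _ _ (h3 q hq).1 (h3 p hp).1]
      exact h6
  · unfold push
    rw [image_image]
    exact h2
  · intro a ha
    unfold push at ha
    rw [mem_image] at ha
    obtain ⟨p, hp, rfl⟩ := ha
    refine ⟨fun e => (h3 p hp).1 (τ.injective (by rw [hu]; exact e)), ?_⟩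
    show c' u (τ p.2) = k p.1
    rw [hcol _ (h3 p hp).1]
    exact (h3 p hp).2

theorem NU_eq {A : I → I → Prop} {G H : V → V → Prop} {π : V → Equiv.Perm V}
    {rG rH : V → V → Prop} {cG cH : V → V → C} (hD : Deck G H π rG rH cG cH)
    (S : Finset I) (k : I → C) (u : V) :
    (NU A G rG cG S k u).card = (NU A H rH cH S k u).card := by
  have hu := hD.hyp.fix u
  have hu' : (π u).symm u = u := by
    rw [Equiv.symm_apply_eq]
    exact hu.symm
  have hne : ∀ z, z ≠ u → (π u).symm z ≠ u := by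
    intro z hz e
    rw [Equiv.symm_apply_eq, hu] at e
    exact hz e
  apply card_bij' (fun J _ => push (π u) J) (fun J _ => push (π u).symm J)
  · intro J hJ
    exact push_mem hu (hD.hyp.adj u) (hD.rel u) (hD.col u) hJ
  · intro J hJ
    refine push_mem hu' ?_ ?_ ?_ hJ
    · intro x y hx hy
      rw [← hD.hyp.adj u _ _ (hne x hx) (hne y hy), Equiv.apply_symm_apply,
        Equiv.apply_symm_apply]
    · intro x y hx hy
      rw [← hD.rel u _ _ (hne x hx) (hne y hy), Equiv.apply_symm_apply, Equiv.apply_symm_apply]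
    · intro x hx
      rw [← hD.col u _ (hne x hx), Equiv.apply_symm_apply]
  · intro J _
    exact push_push _ J
  · intro J _
    exact push_push' _ J

/-- **Kelly's lemma for coloured quotients.** -/
theorem kelly {A : I → I → Prop} {G H : V → V → Prop} {π : V → Equiv.Perm V}
    {rG rH : V → V → Prop} {clG clH : V → C} {cG cH : V → V → C} {coef : C → C → ℕ}
    {sz : C → ℕ} (hG : Cls rG clG cG coef sz) (hH : Cls rH clH cH coef sz)
    (hD : Deck G H π rG rH cG cH) (S : Finset I) :
    ∀ (m : ℕ) (k : I → C), ∑ a ∈ S, sz (k a) + (m + 1) = Fintype.card V →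
      (NJ A G rG clG S k).card = (NJ A H rH clH S k).card := by
  intro m
  induction' m with m ih
  · intro k hk
    rw [base hG k (by omega), base hH k (by omega), hD.trv]
    exact sum_congr rfl (fun u _ => NU_eq hD S k u)
  · intro k hk
    set T : Finset C := univ.image clG ∪ univ.image clH with hT
    have h1 := identity (A := A) (X := G) (S := S) hG k T
      (fun w => mem_union_left _ (mem_image_of_mem _ (mem_univ w)))
    have h2 := identity (A := A) (X := H) (S := S) hH k T
      (fun w => mem_union_right _ (mem_image_of_mem _ (mem_univ w)))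
    rw [sum_congr rfl (fun u _ => NU_eq hD S k u), h2] at h1
    have h3 : ∑ a ∈ S, ∑ c ∈ T, coef c (k a) * (NJ A G rG clG S (Function.update k a c)).card =
        ∑ a ∈ S, ∑ c ∈ T, coef c (k a) *
          (NJ A H rH clH S (Function.update k a c)).card := by
      apply sum_congr rfl
      intro a ha
      apply sum_congr rfl
      intro c _
      by_cases hc : coef c (k a) = 0
      · rw [hc, zero_mul, zero_mul]
      · rw [ih (Function.update k a c) ?_]
        have h4 := hG.step c (k a) hc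
        have h5 : ∑ b ∈ S, sz (Function.update k a c b) = ∑ b ∈ S, sz (k b) + 1 := by
          rw [← add_sum_erase S _ ha, ← add_sum_erase S (fun b => sz (k b)) ha]
          rw [Function.update_self, h4]
          have : ∑ b ∈ S.erase a, sz (Function.update k a c b) =
              ∑ b ∈ S.erase a, sz (k b) := by
            apply sum_congr rfl
            intro b hb
            rw [Function.update_of_ne (mem_erase.mp hb).1]
          rw [this]
          omega
        omega
    rw [h3] at h1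
    have h4 : Fintype.card V - ∑ a ∈ S, sz (k a) = m + 2 := by omega
    rw [h4] at h1
    have h5 := Nat.add_right_cancel h1
    exact (Nat.eq_of_mul_eq_mul_left (by omega) h5).symm

end Pool.Agent.H71.PQ
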