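import Pool.Agent.H71.PQ.Fin

set_option autoImplicit false
set_option linter.unusedSectionVars false

/-!
# From ordered sets to relations
-/

namespace Pool.Agent.H71.PQ

open Finset Classical
open Pool.Agent.H71.PO (Hypo NonIso)

section bridge

variable {P Q : Type} [PartialOrder P] [PartialOrder Q]

theorem le_iff_of_lt {a b : P} {x y : Q} (he : a = b ↔ x = y) (h : a < b ↔ x < y) :
    a ≤ b ↔ x ≤ y := by
  rw [le_iff_lt_or_eq, le_iff_lt_or_eq, he, h]

/-- a bijection which preserves and reflects the strict order is an isomorphism -/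
theorem iso_of_lt (e : P ≃ Q) (h : ∀ x y, x ≠ y → (e x < e y ↔ x < y)) : Nonempty (P ≃o Q) := by
  refine ⟨⟨e, ?_⟩⟩
  intro a b
  apply le_iff_of_lt (e.injective.eq_iff)
  by_cases hab : a = b
  · rw [hab]
    exact iff_of_false (lt_irrefl _) (lt_irrefl _)
  · exact h a b hab

variable [Fintype P]

theorem exists_hypo (hdeck : ∃ σ : P ≃ Q, ∀ x : P,
      Nonempty ({y : P // y ≠ x} ≃o {y : Q // y ≠ σ x})) (hiso : ¬ Nonempty (P ≃o Q)) :
    ∃ (H : P → P → Prop) (π : P → Equiv.Perm P),
      Hypo (fun x y : P => x < y) H π ∧ NonIso (fun x y : P => x < y) H := by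
  obtain ⟨σ, hσ⟩ := hdeck
  have h1 : ∀ v, ∃ τ : Equiv.Perm P, τ v = v ∧ ∀ x y, x ≠ v → y ≠ v →
      (σ (τ x) < σ (τ y) ↔ x < y) := by
    intro v
    obtain ⟨e⟩ := hσ v
    let g : {x : P // x ≠ v} ≃ {x : P // x ≠ v} :=
      e.toEquiv.trans ((σ.symm.subtypeEquiv (fun y => by
        constructor
        · intro h h'
          apply h
          rw [← h', Equiv.apply_symm_apply]
        · intro h h'
          apply h
          rw [h', Equiv.symm_apply_apply])))
    have hg : ∀ x, σ (g x : P) = (e x : Q) := by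
      intro x
      show σ (σ.symm (e x)) = _
      simp
    let τ : Equiv.Perm P := g.extendSubtype
    refine ⟨τ, ?_, ?_⟩
    · by_contra hne
      have : ¬ (¬ (τ v ≠ v)) := not_not.mpr hne
      exact this (g.extendSubtype_not_mem v (fun h => h rfl))
    · intro x y hx hy
      have ex : τ x = g ⟨x, hx⟩ := g.extendSubtype_apply_of_mem x hx
      have ey : τ y = g ⟨y, hy⟩ := g.extendSubtype_apply_of_mem y hy
      rw [ex, ey, hg, hg]
      exact e.lt_iff_lt (x := ⟨x, hx⟩) (y := ⟨y, hy⟩)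
  choose π hπ1 hπ2 using h1
  refine ⟨fun x y => σ x < σ y, π, ⟨hπ1, fun v x y hx hy => hπ2 v x y hx hy⟩, ?_⟩
  rintro ⟨τ, hτ⟩
  exact hiso (iso_of_lt (τ.trans σ) (fun x y hxy => hτ x y hxy))

end bridge

/-! ### Parts -/

section parts

variable {P K : Type} [PartialOrder P] [PartialOrder K] [Fintype P] [Fintype K]

theorem same_ord (f : P → K) (i j : K) : SameT (fun x y : P => x < y) f i j ↔
    Nonempty ({x // f x = i} ≃o {x // f x = j}) := by
  rw [same_iff]
  constructor
  · rintro ⟨e, he⟩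
    exact iso_of_lt e (fun x y _ => he x y)
  · rintro ⟨e⟩
    exact ⟨e.toEquiv, fun a b => e.lt_iff_lt⟩

theorem emb_le (f : P → K) (D : Finset K) :
    Nat.card (EmbT (fun x y : K => x < y) (SameT (fun x y : P => x < y) f) D) ≤
      Nat.card {φ : {x // x ∈ D} ↪o K // ∀ i : {x // x ∈ D},
        Nonempty ({x // f x = (i : K)} ≃o {x // f x = φ i})} := by
  have hfin : Finite ({x // x ∈ D} ↪o K) :=
    Finite.of_injective (fun φ : {x // x ∈ D} ↪o K => (φ : {x // x ∈ D} → K))
      DFunLike.coe_injective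
  have hfin' : Finite {φ : {x // x ∈ D} ↪o K // ∀ i : {x // x ∈ D},
        Nonempty ({x // f x = (i : K)} ≃o {x // f x = φ i})} := inferInstance
  apply Nat.card_le_card_of_injective (fun φ : EmbT (fun x y : K => x < y)
    (SameT (fun x y : P => x < y) f) D =>
    (⟨⟨⟨φ.1, φ.2.1⟩, by
      intro a b
      exact le_iff_of_lt (φ.2.1.eq_iff) (φ.2.2.1 a b)⟩,
      fun i => (same_ord f i (φ.1 i)).mp (φ.2.2.2 i)⟩ :
      {φ : {x // x ∈ D} ↪o K // ∀ i : {x // x ∈ D},
        Nonempty ({x // f x = (i : K)} ≃o {x // f x = φ i})}))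
  intro φ ψ h
  apply Subtype.ext
  funext x
  exact congrArg (fun χ : {φ : {x // x ∈ D} ↪o K // ∀ i : {x // x ∈ D},
        Nonempty ({x // f x = (i : K)} ≃o {x // f x = φ i})} => χ.1 x) h

theorem aut_le (f : P → K) :
    Nat.card {φ : K ≃o K // ∀ i, Nonempty ({x // f x = i} ≃o {x // f x = φ i})} ≤
      Nat.card (AutT (fun x y : K => x < y) (SameT (fun x y : P => x < y) f)) := by
  have hfin : Finite (AutT (fun x y : K => x < y) (SameT (fun x y : P => x < y) f)) := by
    unfold AutT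
    infer_instance
  apply Nat.card_le_card_of_injective (fun φ : {φ : K ≃o K // ∀ i,
      Nonempty ({x // f x = i} ≃o {x // f x = φ i})} =>
    (⟨φ.1.toEquiv, fun x y => φ.1.lt_iff_lt, fun i => (same_ord f i (φ.1 i)).mpr (φ.2 i)⟩ :
      AutT (fun x y : K => x < y) (SameT (fun x y : P => x < y) f)))
  intro φ ψ h
  apply Subtype.ext
  apply RelIso.ext
  intro x
  exact congrArg (fun χ : AutT (fun x y : K => x < y) (SameT (fun x y : P => x < y) f) =>
    χ.1 x) h

end parts

end Pool.Agent.H71.PQ
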