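import Pool.Agent.H71.PQ.Core

set_option autoImplicit false
set_option linter.unusedSectionVars false

/-!
# Recognition of the partition by modules of the graph without one or two vertices
-/

namespace Pool.Agent.H71.PQ

open Finset Classical
open Pool.Agent.H71.PO (Hypo NonIso)

variable {V : Type}

/-- `M` is a module of `X - U` -/
def IsMod (X : V → V → Prop) (U M : Finset V) : Prop :=
  Disjoint M U ∧ ∀ z, z ∉ M → z ∉ U → ∀ a ∈ M, ∀ b ∈ M, (X z a ↔ X z b) ∧ (X a z ↔ X b z)

/-- `x` and `y` belong to a common module of `X - U` with at most `s` vertices -/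
def mr (X : V → V → Prop) (s : ℕ) (U : Finset V) (x y : V) : Prop :=
  ∃ M : Finset V, IsMod X U M ∧ M.card ≤ s ∧ x ∈ M ∧ y ∈ M

variable [Fintype V]

theorem mr_push {X Y : V → V → Prop} {τ : Equiv.Perm V} {s : ℕ} {u : V} {U : Finset V}
    (hu : u ∈ U) (hadj : ∀ a b, a ≠ u → b ≠ u → (Y (τ a) (τ b) ↔ X a b)) {x y : V}
    (h : mr X s U x y) : mr Y s (U.image τ) (τ x) (τ y) := by
  obtain ⟨M, ⟨h1, h6⟩, hs, h2, h3⟩ := h
  have hMu : ∀ a ∈ M, a ≠ u := fun a ha e => disjoint_left.mp h1 ha (e ▸ hu)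
  have hmem : ∀ (T : Finset V) (a : V), τ a ∈ T.image τ ↔ a ∈ T := by
    intro T a
    rw [mem_image]
    constructor
    · rintro ⟨b, hb, e⟩
      rwa [← τ.injective e]
    · intro ha
      exact ⟨a, ha, rfl⟩
  refine ⟨M.image τ, ⟨?_, ?_⟩, card_image_le.trans hs, (hmem M x).mpr h2, (hmem M y).mpr h3⟩
  · rw [disjoint_left]
    intro w hw hw'
    rw [mem_image] at hw
    obtain ⟨a, ha, rfl⟩ := hw
    exact disjoint_left.mp h1 ha ((hmem U a).mp hw')
  · intro z hz hzU a' ha' b' hb'
    obtain ⟨w, rfl⟩ := τ.surjective z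
    have hwM : w ∉ M := fun h => hz ((hmem M w).mpr h)
    have hwU : w ∉ U := fun h => hzU ((hmem U w).mpr h)
    have hwu : w ≠ u := fun e => hwU (e ▸ hu)
    rw [mem_image] at ha' hb'
    obtain ⟨a, ha, rfl⟩ := ha'
    obtain ⟨b, hb, rfl⟩ := hb'
    rw [hadj w a hwu (hMu a ha), hadj w b hwu (hMu b hb), hadj a w (hMu a ha) hwu,
      hadj b w (hMu b hb) hwu]
    exact h6 w hwM hwU a ha b hb

variable {G H : V → V → Prop} {π : V → Equiv.Perm V}

theorem mr_deck (hH : Hypo G H π) {s : ℕ} {u : V} {U : Finset V} (hu : u ∈ U) (x y : V) :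
    mr H s (U.image (π u)) (π u x) (π u y) ↔ mr G s U x y := by
  constructor
  · intro h
    have hu' : u ∈ U.image (π u) := mem_image.mpr ⟨u, hu, hH.fix u⟩
    have h1 := mr_push (Y := G) (τ := (π u).symm) hu' (fun a b ha hb => by
      rw [← hH.adj u _ _ (symm_ne hH ha) (symm_ne hH hb), Equiv.apply_symm_apply,
        Equiv.apply_symm_apply]) h
    rw [Equiv.symm_apply_apply, Equiv.symm_apply_apply, image_image] at h1
    have h2 : (π u).symm ∘ (π u) = id := by
      funext z
      simp
    rw [h2, image_id] at h1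
    exact h1
  · intro h
    exact mr_push hu (fun a b ha hb => hH.adj u a b ha hb) h

variable {I : Type} [Fintype I]

/-- every module of `G - U`, `U` with at most two vertices, which is not contained in a part has
more than `s` vertices -/
def BigMod (G : V → V → Prop) (c : V → I) (s : ℕ) : Prop :=
  ∀ U M : Finset V, U.card ≤ 2 → IsMod G U M → (∃ x ∈ M, ∃ y ∈ M, c x ≠ c y) → s < M.card

theorem mr_iff {A : I → I → Prop} {c : V → I}
    (hadj : ∀ x y, c x ≠ c y → (G x y ↔ A (c x) (c y))) {s : ℕ}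
    (hs : ∀ i, (univ.filter (fun v => c v = i)).card ≤ s) (hR : BigMod G c s)
    {U : Finset V} (hU : U.card ≤ 2) {x y : V} (hx : x ∉ U) (hy : y ∉ U) :
    mr G s U x y ↔ c x = c y := by
  constructor
  · rintro ⟨M, h1, h2, h3, h4⟩
    by_contra hne
    have := hR U M hU h1 ⟨x, h3, y, h4, hne⟩
    omega
  · intro hxy
    refine ⟨univ.filter (fun v => c v = c x ∧ v ∉ U), ⟨?_, ?_⟩, ?_, ?_, ?_⟩
    · rw [disjoint_left]
      intro v hv
      exact (mem_filter.mp hv).2.2
    · intro w hw hwU a ha b hb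
      have ha' := (mem_filter.mp ha).2
      have hb' := (mem_filter.mp hb).2
      have hne : c w ≠ c x := fun e => hw (mem_filter.mpr ⟨mem_univ _, e, hwU⟩)
      rw [hadj w a (by rw [ha'.1]; exact hne), hadj w b (by rw [hb'.1]; exact hne),
        hadj a w (by rw [ha'.1]; exact Ne.symm hne), hadj b w (by rw [hb'.1]; exact Ne.symm hne),
        ha'.1, hb'.1]
      exact ⟨Iff.rfl, Iff.rfl⟩
    · refine le_trans (card_le_card ?_) (hs (c x))
      intro v hv
      exact mem_filter.mpr ⟨mem_univ _, (mem_filter.mp hv).2.1⟩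
    · exact mem_filter.mpr ⟨mem_univ _, rfl, hx⟩
    · exact mem_filter.mpr ⟨mem_univ _, hxy.symm, hy⟩

/-- **Recognition by modules.** -/
theorem size_rel {A : I → I → Prop} {c : V → I}
    (hadj : ∀ x y, c x ≠ c y → (G x y ↔ A (c x) (c y))) {s : ℕ}
    (hs : ∀ i, (univ.filter (fun v => c v = i)).card ≤ s) (hR : BigMod G c s)
    (hH : Hypo G H π) :
    RelDeck π (fun x y => c x = c y) (fun x y => ∃ u, x ≠ u ∧ y ≠ u ∧ mr H s {u} x y) := by
  -- one vertex
  have h1 : ∀ u x y, x ≠ u → y ≠ u → (mr H s {u} (π u x) (π u y) ↔ c x = c y) := by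
    intro u x y hx hy
    have h2 := mr_deck hH (s := s) (mem_singleton_self u) x y
    rw [image_singleton, hH.fix] at h2
    rw [h2]
    exact mr_iff hadj hs hR (by simp) (by simpa using hx) (by simpa using hy)
  -- two vertices
  have h2 : ∀ u w x y, x ≠ u → y ≠ u → x ≠ w → y ≠ w →
      (mr H s {u} x y ↔ mr H s {u, w} x y) := by
    intro u w x y hx hy hxw hyw
    have hx' : (π u).symm x ≠ u := symm_ne hH hx
    have hy' : (π u).symm y ≠ u := symm_ne hH hy
    have h3 := h1 u ((π u).symm x) ((π u).symm y) hx' hy'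
    rw [Equiv.apply_symm_apply, Equiv.apply_symm_apply] at h3
    rw [h3]
    have h4 := mr_deck hH (s := s) (u := u) (U := {u, (π u).symm w})
      (mem_insert_self u _) ((π u).symm x) ((π u).symm y)
    rw [Equiv.apply_symm_apply, Equiv.apply_symm_apply, image_insert, image_singleton, hH.fix,
      Equiv.apply_symm_apply] at h4
    rw [h4]
    symm
    apply mr_iff hadj hs hR (card_le_two)
    · rw [mem_insert, mem_singleton, not_or]
      exact ⟨hx', fun e => hxw ((π u).symm.injective e)⟩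
    · rw [mem_insert, mem_singleton, not_or]
      exact ⟨hy', fun e => hyw ((π u).symm.injective e)⟩
  intro u x y hx hy
  show (∃ w, π u x ≠ w ∧ π u y ≠ w ∧ mr H s {w} (π u x) (π u y)) ↔ c x = c y
  rw [← h1 u x y hx hy]
  have hx' : π u x ≠ u := pi_ne hH hx
  have hy' : π u y ≠ u := pi_ne hH hy
  constructor
  · rintro ⟨w, hw1, hw2, hw3⟩
    rw [h2 w u _ _ hw1 hw2 hx' hy', pair_comm, ← h2 u w _ _ hx' hy' hw1 hw2] at hw3
    exact hw3
  · intro h
    exact ⟨u, hx', hy', h⟩

/-! ### Quotients which remain prime -/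

/-- `A - D` has no nontrivial module -/
def PW (A : I → I → Prop) (D : Finset I) : Prop :=
  ∀ S : Finset I, Disjoint S D →
    (∀ z, z ∉ S → z ∉ D → ∀ x ∈ S, ∀ y ∈ S, (A z x ↔ A z y) ∧ (A x z ↔ A y z)) →
    S.card ≤ 1 ∨ ∀ z, z ∈ S ∨ z ∈ D

theorem prime_mod {A : I → I → Prop} {c : V → I} (hc : Function.Surjective c)
    (hadj : ∀ x y, c x ≠ c y → (G x y ↔ A (c x) (c y)))
    (hK : 5 ≤ Fintype.card I)
    (hp : ∀ D : Finset I, (univ.filter (fun v => c v ∈ D)).card ≤ 2 → PW A D)
    {U M : Finset V} (hU : U.card ≤ 2) (hM : IsMod G U M) (hxy : ∃ x ∈ M, ∃ y ∈ M, c x ≠ c y) :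
    ∀ z, z ∈ M ∨ z ∈ U := by
  obtain ⟨h1, h6⟩ := hM
  obtain ⟨x, h2, y, h3, hne⟩ := hxy
  by_contra hcon
  push Not at hcon
  obtain ⟨z0, h4, h5⟩ := hcon
  -- the classes contained in `U`
  set D0 : Finset I := univ.filter (fun i => ∀ v, c v = i → v ∈ U) with hD0
  have hD0c : D0.card ≤ 2 := by
    have : D0 ⊆ U.image c := by
      intro i hi
      obtain ⟨v, hv⟩ := hc i
      exact mem_image.mpr ⟨v, (mem_filter.mp hi).2 v hv, hv⟩
    exact (card_le_card this).trans (card_image_le.trans hU)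
  have hD0u : (univ.filter (fun v => c v ∈ D0)).card ≤ 2 := by
    refine le_trans (card_le_card ?_) hU
    intro v hv
    exact (mem_filter.mp (mem_filter.mp hv).2).2 v rfl
  have hD0' : ∀ i, i ∉ D0 → ∃ v, c v = i ∧ v ∉ U := by
    intro i hi
    by_contra hcon
    push Not at hcon
    exact hi (mem_filter.mpr ⟨mem_univ _, hcon⟩)
  have hcD : ∀ v, v ∉ U → c v ∉ D0 := fun v hv h => hv ((mem_filter.mp h).2 v rfl)
  have hMU : ∀ v ∈ M, v ∉ U := fun v hv => disjoint_left.mp h1 hv
  have hS : ∀ z, z ∈ M.image c ∨ z ∈ D0 := by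
    rcases hp D0 hD0u (M.image c) (by
      rw [disjoint_left]
      intro i hi
      rw [mem_image] at hi
      obtain ⟨v, hv, rfl⟩ := hi
      exact hcD v (hMU v hv)) (by
      intro z hz hzD i hi j hj
      obtain ⟨w, hw, hwU⟩ := hD0' z hzD
      rw [mem_image] at hi hj
      obtain ⟨a, ha, rfl⟩ := hi
      obtain ⟨b, hb, rfl⟩ := hj
      have hwM : w ∉ M := fun h => hz (mem_image.mpr ⟨w, h, hw⟩)
      have hna : c w ≠ c a := fun e => hz (mem_image.mpr ⟨a, ha, by rw [← e, hw]⟩)
      have hnb : c w ≠ c b := fun e => hz (mem_image.mpr ⟨b, hb, by rw [← e, hw]⟩)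
      rw [← hw, ← hadj w a hna, ← hadj w b hnb, ← hadj a w (Ne.symm hna),
        ← hadj b w (Ne.symm hnb)]
      exact h6 w hwM hwU a ha b hb) with h | h
    · exfalso
      have : 1 < (M.image c).card :=
        one_lt_card.mpr ⟨c x, mem_image_of_mem c h2, c y, mem_image_of_mem c h3, hne⟩
      omega
    · exact h
  -- the class of `z0`
  set k := c z0 with hk
  have hkD : k ∉ D0 := hcD z0 h5
  rcases hp D0 hD0u ((M.image c).erase k) (by
      rw [disjoint_left]
      intro i hi
      have hi' := mem_of_mem_erase hi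
      rw [mem_image] at hi'
      obtain ⟨v, hv, rfl⟩ := hi'
      exact hcD v (hMU v hv)) (by
      intro z hz hzD i hi j hj
      have hzk : z = k := by
        by_contra hzk
        exact hz (mem_erase.mpr ⟨hzk, (hS z).resolve_right hzD⟩)
      rw [mem_erase, mem_image] at hi hj
      obtain ⟨hik, a, ha, rfl⟩ := hi
      obtain ⟨hjk, b, hb, rfl⟩ := hj
      rw [hzk, hk, ← hadj z0 a (fun e => hik e.symm), ← hadj z0 b (fun e => hjk e.symm),
          ← hadj a z0 hik, ← hadj b z0 hjk]
      exact h6 z0 h4 h5 a ha b hb) with h | h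
  · -- too small
    have h7 : (univ : Finset I) ⊆ insert k (((M.image c).erase k) ∪ D0) := by
      intro i _
      rw [mem_insert, mem_union, mem_erase]
      by_cases hik : i = k
      · exact Or.inl hik
      · rcases hS i with h8 | h8
        · exact Or.inr (Or.inl ⟨hik, h8⟩)
        · exact Or.inr (Or.inr h8)
    have h8 := card_le_card h7
    rw [card_univ] at h8
    have h9 := card_insert_le k (((M.image c).erase k) ∪ D0)
    have h10 := card_union_le ((M.image c).erase k) D0
    omega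
  · rcases h k with h | h
    · exact (mem_erase.mp h).1 rfl
    · exact hkD h

theorem part_le {c : V → I} (hc : Function.Surjective c) (i : I) :
    (univ.filter (fun v => c v = i)).card + Fintype.card I ≤ Fintype.card V + 1 := by
  have h1 := card_filter_add_card_filter_not (s := (univ : Finset V)) (fun v => c v = i)
  have h2 : (univ.erase i : Finset I) ⊆ (univ.filter (fun v => ¬ c v = i)).image c := by
    intro j hj
    obtain ⟨v, rfl⟩ := hc j
    exact mem_image_of_mem c (mem_filter.mpr ⟨mem_univ _, (mem_erase.mp hj).1⟩)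
  have h3 := (card_le_card h2).trans card_image_le
  rw [card_erase_of_mem (mem_univ i), card_univ] at h3
  rw [card_univ] at h1
  omega

/-- **Recognition if the quotient remains prime.** -/
theorem prime_big {A : I → I → Prop} {c : V → I} (hc : Function.Surjective c)
    (hadj : ∀ x y, c x ≠ c y → (G x y ↔ A (c x) (c y)))
    (hK : 5 ≤ Fintype.card I)
    (hp : ∀ D : Finset I, (univ.filter (fun v => c v ∈ D)).card ≤ 2 → PW A D) :
    (∀ i, (univ.filter (fun v => c v = i)).card ≤ Fintype.card V - 4) ∧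
      BigMod G c (Fintype.card V - 4) := by
  refine ⟨fun i => ?_, fun U M hU hM hxy => ?_⟩
  · have := part_le hc i
    omega
  · have h1 := prime_mod hc hadj hK hp hU hM hxy
    have h2 : (univ : Finset V) ⊆ M ∪ U := fun z _ => mem_union.mpr (h1 z)
    have h3 := card_le_card h2
    rw [card_univ] at h3
    have h4 := card_union_le M U
    obtain ⟨x, hx, y, hy, hne⟩ := hxy
    have h5 := part_le hc (c x)
    have h6 : 0 < (univ.filter (fun v => c v = c x)).card :=
      card_pos.mpr ⟨x, mem_filter.mpr ⟨mem_univ _, rfl⟩⟩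
    omega

end Pool.Agent.H71.PQ
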